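import Pool.Agent.H65.EH.Pol

/-!
# The coefficient of `t^(d-4)` for large `r`

As a function of `R = r - 1` it is a polynomial of degree `d - 1` with leading coefficient
`binom(d, 4) B_4 / (d-1)! = -d / (720 (d-4)!)`.
-/

set_option autoImplicit false

namespace Pool.Agent.H65.EH

open Polynomial Filter Topology

/-- the coefficient of `R^i` in the coefficient of `t^k` -/
noncomputable def Ac (d k i : ℕ) : ℚ :=
  ∑ j ∈ Finset.range (d + 1), (d.choose j : ℚ) * ((E (d - j)).coeff i * ((S ^ j) (X ^ i)).coeff k)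

theorem comp_expand (R d m : ℕ) (hm : m ≤ d) : (E m).comp (C (R : ℚ) * X) =
    ∑ i ∈ Finset.range (d + 1), ((E m).coeff i * (R : ℚ) ^ i) • (X ^ i : ℚ[X]) := by
  ext k
  rw [comp_coeff, finsetSum_coeff]
  simp_rw [coeff_smul, coeff_X_pow, smul_eq_mul]
  by_cases hk : k < d + 1
  · rw [Finset.sum_eq_single k]
    · rw [if_pos rfl, mul_one]
    · intro i _ hne
      rw [if_neg hne.symm, mul_zero]
    · intro h
      exact absurd (Finset.mem_range.2 hk) h
  · rw [coeff_eq_zero_of_natDegree_lt (lt_of_le_of_lt (E_natDegree m) (by omega)), zero_mul]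
    refine (Finset.sum_eq_zero fun i hi => ?_).symm
    rw [Finset.mem_range] at hi
    rw [if_neg (by omega), mul_zero]

theorem ehr_coeff (R d k : ℕ) : (ehr R d).coeff k =
    ∑ i ∈ Finset.range (d + 1), Ac d k i * (R : ℚ) ^ i := by
  unfold ehr Ac
  rw [finsetSum_coeff]
  have h1 : ∀ j ∈ Finset.range (d + 1),
      ((d.choose j : ℚ) • (S ^ j) ((E (d - j)).comp (C (R : ℚ) * X))).coeff k =
      ∑ i ∈ Finset.range (d + 1), (d.choose j : ℚ) *
        ((E (d - j)).coeff i * ((S ^ j) (X ^ i)).coeff k) * (R : ℚ) ^ i := by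
    intro j _
    rw [comp_expand R d (d - j) (Nat.sub_le d j), map_sum, coeff_smul, finsetSum_coeff,
      smul_eq_mul, Finset.mul_sum]
    refine Finset.sum_congr rfl fun i _ => ?_
    rw [map_smul, coeff_smul, smul_eq_mul]
    ring
  rw [Finset.sum_congr rfl h1, Finset.sum_comm]
  refine Finset.sum_congr rfl fun i _ => ?_
  rw [Finset.sum_mul]

theorem bern_four : _root_.bernoulli 4 = -1 / 30 := by
  rw [bernoulli_eq_bernoulli'_of_ne_one (by norm_num), bernoulli'_four]

theorem Ac_top (e : ℕ) : Ac (e + 5) (e + 1) (e + 5) = 0 := by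
  unfold Ac
  refine Finset.sum_eq_zero fun j hj => ?_
  rcases Nat.eq_zero_or_pos j with rfl | h
  · rw [pow_zero, Module.End.one_apply, coeff_X_pow, if_neg (by omega), mul_zero, mul_zero]
  · rw [coeff_eq_zero_of_natDegree_lt (lt_of_le_of_lt (E_natDegree (e + 5 - j)) (by omega)),
      zero_mul, mul_zero]

theorem Ac_sub (e : ℕ) :
    Ac (e + 5) (e + 1) (e + 4) = -((e : ℚ) + 5) / (720 * ((e + 1).factorial : ℚ)) := by
  unfold Ac
  rw [Finset.sum_eq_single 1]
  · rw [Nat.choose_one_right, pow_one, S_X_pow, F_coeff, if_pos (by omega)]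
    have e1 : e + 5 - 1 = e + 4 := by omega
    have e2 : e + 4 + 1 - (e + 1) = 4 := by omega
    rw [e1, e2, E_coeff_top, bern_four]
    have h1 : (e + 4 + 1).choose 4 * Nat.factorial 4 * (e + 1).factorial = (e + 4 + 1).factorial :=
      Nat.choose_mul_factorial_mul_factorial (by omega)
    have h2 : (e + 4 + 1).factorial = (e + 4 + 1) * (e + 4).factorial := Nat.factorial_succ _
    have h3 : Nat.factorial 4 = 24 := rfl
    rw [h2, h3] at h1
    have h4 : ((e + 4 + 1).choose 4 : ℚ) * 24 * ((e + 1).factorial : ℚ) =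
        ((e : ℚ) + 4 + 1) * ((e + 4).factorial : ℚ) := by exact_mod_cast h1
    have p1 : ((e + 1).factorial : ℚ) ≠ 0 := by positivity
    have p2 : ((e + 4).factorial : ℚ) ≠ 0 := by positivity
    have p3 : ((e : ℚ) + 4 + 1) ≠ 0 := by positivity
    have h5 : ((e + 4 + 1).choose 4 : ℚ) =
        ((e : ℚ) + 4 + 1) * ((e + 4).factorial : ℚ) / (24 * ((e + 1).factorial : ℚ)) := by
      rw [eq_div_iff (by positivity)]
      linarith
    rw [h5]
    push_cast
    field_simp
    ring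
  · intro j hj hne
    rcases Nat.eq_zero_or_pos j with rfl | h
    · rw [pow_zero, Module.End.one_apply, coeff_X_pow, if_neg (by omega), mul_zero, mul_zero]
    · rw [coeff_eq_zero_of_natDegree_lt (lt_of_le_of_lt (E_natDegree (e + 5 - j)) (by omega)),
        zero_mul, mul_zero]
  · intro h
    exact absurd (Finset.mem_range.2 (by omega)) h

theorem tendsto_ratio : Tendsto (fun r : ℕ => (((r - 1 : ℕ) : ℝ)) / (r : ℝ)) atTop (𝓝 1) := by
  have h1 : Tendsto (fun r : ℕ => 1 - 1 / (r : ℝ)) atTop (𝓝 (1 - 0)) :=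
    tendsto_const_nhds.sub tendsto_one_div_atTop_nhds_zero_nat
  rw [sub_zero] at h1
  refine h1.congr' ?_
  filter_upwards [eventually_ge_atTop 1] with r hr
  have hr0 : (r : ℝ) ≠ 0 := by positivity
  rw [Nat.cast_sub hr]
  field_simp
  push_cast
  ring

theorem tendsto_term (D i : ℕ) (hi : i ≤ D) :
    Tendsto (fun r : ℕ => (((r - 1 : ℕ) : ℝ)) ^ i / (r : ℝ) ^ D) atTop
      (𝓝 (if i = D then 1 else 0)) := by
  have h1 : Tendsto (fun r : ℕ => ((((r - 1 : ℕ) : ℝ)) / (r : ℝ)) ^ i * (1 / (r : ℝ)) ^ (D - i)) atTop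
      (𝓝 (1 ^ i * 0 ^ (D - i))) :=
    (tendsto_ratio.pow i).mul (tendsto_one_div_atTop_nhds_zero_nat.pow (D - i))
  have h2 : (1 ^ i * 0 ^ (D - i) : ℝ) = if i = D then 1 else 0 := by
    split_ifs with h
    · rw [h, Nat.sub_self]; simp
    · rw [zero_pow (by omega)]; simp
  rw [h2] at h1
  refine h1.congr' ?_
  filter_upwards [eventually_ge_atTop 1] with r hr
  have hr0 : (r : ℝ) ≠ 0 := by positivity
  have h3 : (r : ℝ) ^ D = (r : ℝ) ^ i * (r : ℝ) ^ (D - i) := by
    rw [← pow_add]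
    congr 1
    omega
  rw [h3, div_pow, div_pow, one_pow]
  field_simp

/-- the coefficient of `t^(d-4)` is asymptotic to `-d / (720 (d-4)!) r^(d-1)` -/
theorem ehr_tendsto (e : ℕ) :
    Tendsto (fun r : ℕ => (((ehr (r - 1) (e + 5)).coeff (e + 1) : ℚ) : ℝ) / (r : ℝ) ^ (e + 4)) atTop
      (𝓝 (-((e : ℝ) + 5) / (720 * ((e + 1).factorial : ℝ)))) := by
  have h1 : ∀ r : ℕ, (((ehr (r - 1) (e + 5)).coeff (e + 1) : ℚ) : ℝ) / (r : ℝ) ^ (e + 4) =
      ∑ i ∈ Finset.range (e + 5), ((Ac (e + 5) (e + 1) i : ℚ) : ℝ) *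
        ((((r - 1 : ℕ) : ℝ)) ^ i / (r : ℝ) ^ (e + 4)) := by
    intro r
    rw [ehr_coeff, Finset.sum_range_succ, Ac_top, zero_mul, add_zero]
    push_cast
    rw [Finset.sum_div]
    exact Finset.sum_congr rfl fun i _ => by rw [mul_div_assoc]
  simp_rw [h1]
  have h2 : Tendsto (fun r : ℕ => ∑ i ∈ Finset.range (e + 5), ((Ac (e + 5) (e + 1) i : ℚ) : ℝ) *
        ((((r - 1 : ℕ) : ℝ)) ^ i / (r : ℝ) ^ (e + 4))) atTop
      (𝓝 (∑ i ∈ Finset.range (e + 5), ((Ac (e + 5) (e + 1) i : ℚ) : ℝ) *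
        (if i = e + 4 then 1 else 0))) :=
    tendsto_finset_sum _ fun i hi => (tendsto_term (e + 4) i (by
      rw [Finset.mem_range] at hi; omega)).const_mul _
  have h3 : (∑ i ∈ Finset.range (e + 5), ((Ac (e + 5) (e + 1) i : ℚ) : ℝ) *
        (if i = e + 4 then 1 else 0)) = -((e : ℝ) + 5) / (720 * ((e + 1).factorial : ℝ)) := by
    rw [Finset.sum_eq_single (e + 4)]
    · rw [if_pos rfl, mul_one, Ac_sub]
      push_cast
      ring
    · intro i _ hne
      rw [if_neg hne, mul_zero]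
    · intro h
      exact absurd (Finset.mem_range.2 (by omega)) h
  rw [h3] at h2
  exact h2

end Pool.Agent.H65.EH
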