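import Mathlib

/-!
# Base-`r` numeral system simplices: definitions (MP_ffae75_co)
-/

set_option autoImplicit false

namespace Pool.Agent.H65.EH

open scoped Pointwise

/-- The base-`r` `d`-simplex `B_(r,d)`: the convex hull in `ℝ^d` of the standard basis vectors
`e_1, …, e_d` and the point `-∑_{k=1}^d (r-1) r^(k-1) e_k`.  Coordinates are indexed by `Fin d`,
so that `k : Fin d` stands for the coordinate number `k + 1`. -/
def baseSimplex (r d : ℕ) : Set (Fin d → ℝ) :=
  convexHull ℝ (insert (fun k : Fin d => -(((r : ℝ) - 1) * (r : ℝ) ^ (k : ℕ)))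
    (Set.range fun k : Fin d => (Pi.single k (1 : ℝ) : Fin d → ℝ)))

/-- The number `#(tP ∩ ℤ^d)` of lattice points in the `t`-th dilate of `P`. -/
noncomputable def latticePointCount {d : ℕ} (P : Set (Fin d → ℝ)) (t : ℕ) : ℕ :=
  Set.ncard {x : Fin d → ℤ | (fun k => (x k : ℝ)) ∈ (t : ℝ) • P}

/-- `p` is the Ehrhart polynomial of `P ⊆ ℝ^d`: it has degree `d`, and its value at every integer
`t ≥ 0` is the number of lattice points in `tP`. -/
def IsEhrhartPolynomial {d : ℕ} (P : Set (Fin d → ℝ)) (p : Polynomial ℚ) : Prop :=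
  p.natDegree = d ∧ ∀ t : ℕ, (latticePointCount P t : ℚ) = p.eval (t : ℚ)

/-- `P ⊆ ℝ^d` is Ehrhart positive: all coefficients (of `t^0, …, t^d`) of its Ehrhart polynomial
are positive. -/
def EhrhartPositive {d : ℕ} (P : Set (Fin d → ℝ)) : Prop :=
  ∃ p : Polynomial ℚ, IsEhrhartPolynomial P p ∧ ∀ k ≤ d, 0 < p.coeff k

end Pool.Agent.H65.EH
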