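import Pool.Agent.H65.EH.Geo

/-!
# The digit bijection

With `n = R s`, `s = t - ∑ x`, the lattice points of the dilate correspond to the families of pairs
`(y_k, c_k)`, `y_k ≥ 0`, `0 ≤ c_k ≤ R`, with `∑ (R y_k + c_k) ≤ R t`: `y_k = x_k + ⌊n / r^(d-k)⌋` and
`c_k` is the digit number `k` of `n` in base `r = R + 1`.
-/

set_option autoImplicit false

namespace Pool.Agent.H65.EH

/-- the number with the digits `c 0, …, c (d-1)` and the rest `N` -/
def val (r : ℕ) (c : ℕ → ℕ) (N : ℕ) (d : ℕ) : ℕ := ∑ k ∈ Finset.range d, c k * r ^ k + N * r ^ d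

theorem val_succ (r : ℕ) (c : ℕ → ℕ) (N d : ℕ) :
    val r c N (d + 1) = c 0 + r * val r (fun k => c (k + 1)) N d := by
  unfold val
  rw [Finset.sum_range_succ', pow_zero, mul_one, Nat.mul_add, Finset.mul_sum]
  have : ∑ k ∈ Finset.range d, c (k + 1) * r ^ (k + 1) =
      ∑ k ∈ Finset.range d, r * (c (k + 1) * r ^ k) :=
    Finset.sum_congr rfl fun k _ => by ring
  rw [this]
  ring

theorem val_div (r : ℕ) (c : ℕ → ℕ) (N : ℕ) : ∀ d : ℕ, (∀ k < d, c k < r) →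
    val r c N d / r ^ d = N := by
  intro d
  induction d generalizing c with
  | zero => intro _; simp [val]
  | succ d ih =>
    intro h
    have hr : 0 < r := lt_of_le_of_lt (Nat.zero_le _) (h 0 (Nat.succ_pos d))
    rw [val_succ, pow_succ', ← Nat.div_div_eq_div_mul, Nat.add_mul_div_left _ _ hr,
      Nat.div_eq_of_lt (h 0 (Nat.succ_pos d)), Nat.zero_add]
    exact ih _ (fun k hk => h (k + 1) (by omega))

theorem val_digit (r : ℕ) (c : ℕ → ℕ) (N : ℕ) : ∀ d : ℕ, (∀ k < d, c k < r) →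
    ∀ j < d, val r c N d / r ^ j % r = c j := by
  intro d
  induction d generalizing c with
  | zero => intro _ j hj; omega
  | succ d ih =>
    intro h j hj
    have hr : 0 < r := lt_of_le_of_lt (Nat.zero_le _) (h 0 (Nat.succ_pos d))
    rw [val_succ]
    cases j with
    | zero =>
      rw [pow_zero, Nat.div_one, Nat.add_mul_mod_self_left, Nat.mod_eq_of_lt (h 0 (Nat.succ_pos d))]
    | succ j =>
      rw [pow_succ', ← Nat.div_div_eq_div_mul, Nat.add_mul_div_left _ _ hr,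
        Nat.div_eq_of_lt (h 0 (Nat.succ_pos d)), Nat.zero_add]
      exact ih _ (fun k hk => h (k + 1) (by omega)) j (by omega)

theorem val_self (r n : ℕ) (d : ℕ) : val r (fun k => n / r ^ k % r) (n / r ^ d) d = n := by
  unfold val
  induction d with
  | zero => simp
  | succ d ih =>
    rw [Finset.sum_range_succ]
    have h1 : n / r ^ d = r * (n / r ^ (d + 1)) + n / r ^ d % r := by
      rw [pow_succ, ← Nat.div_div_eq_div_mul]
      exact (Nat.div_add_mod _ _).symm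
    calc ∑ k ∈ Finset.range d, n / r ^ k % r * r ^ k + n / r ^ d % r * r ^ d +
          n / r ^ (d + 1) * r ^ (d + 1)
        = ∑ k ∈ Finset.range d, n / r ^ k % r * r ^ k +
          (r * (n / r ^ (d + 1)) + n / r ^ d % r) * r ^ d := by ring
      _ = n := by rw [← h1]; exact ih

/-- the sum of the quotients -/
theorem floor_sum (R n : ℕ) (d : ℕ) :
    R * ∑ j ∈ Finset.range d, n / (R + 1) ^ (j + 1) +
      ∑ k ∈ Finset.range d, n / (R + 1) ^ k % (R + 1) + n / (R + 1) ^ d = n := by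
  induction d with
  | zero => simp
  | succ d ih =>
    rw [Finset.sum_range_succ, Finset.sum_range_succ]
    have h1 : n / (R + 1) ^ d = (R + 1) * (n / (R + 1) ^ (d + 1)) + n / (R + 1) ^ d % (R + 1) := by
      rw [pow_succ, ← Nat.div_div_eq_div_mul]
      exact (Nat.div_add_mod _ _).symm
    have h2 : (R + 1) * (n / (R + 1) ^ (d + 1)) =
      R * (n / (R + 1) ^ (d + 1)) + n / (R + 1) ^ (d + 1) := by ring
    rw [Nat.mul_add]
    omega

variable (R d t : ℕ)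

/-- the families of pairs -/
def Prs : Set (Fin d → ℕ × Fin (R + 1)) := {p | ∑ i, (R * (p i).1 + ((p i).2 : ℕ)) ≤ R * t}

/-- the digits of a family, as a function on the natural numbers -/
def dg (p : Fin d → ℕ × Fin (R + 1)) (k : ℕ) : ℕ := if h : k < d then ((p ⟨k, h⟩).2 : ℕ) else 0

theorem dg_lt (p : Fin d → ℕ × Fin (R + 1)) (k : ℕ) : dg R d p k < R + 1 := by
  unfold dg
  split_ifs with h
  · exact (p ⟨k, h⟩).2.2
  · omega

theorem dg_fin (p : Fin d → ℕ × Fin (R + 1)) (k : Fin d) : dg R d p k = ((p k).2 : ℕ) := by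
  unfold dg
  rw [dif_pos k.2]

theorem sum_dg (p : Fin d → ℕ × Fin (R + 1)) :
    ∑ k ∈ Finset.range d, dg R d p k = ∑ i, ((p i).2 : ℕ) := by
  rw [← Fin.sum_univ_eq_sum_range]
  exact Finset.sum_congr rfl fun k _ => dg_fin R d p k

/-- the number of a family -/
def num (p : Fin d → ℕ × Fin (R + 1)) : ℕ :=
  val (R + 1) (dg R d p) (R * t - ∑ i, (R * (p i).1 + ((p i).2 : ℕ))) d

/-- the lattice point of a family -/
def pt (p : Fin d → ℕ × Fin (R + 1)) (k : Fin d) : ℤ :=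
  ((p k).1 : ℤ) - ((num R d t p / (R + 1) ^ (d - (k : ℕ)) : ℕ) : ℤ)

theorem sum_refl (n : ℕ) : ∑ k : Fin d, n / (R + 1) ^ (d - (k : ℕ)) =
    ∑ j ∈ Finset.range d, n / (R + 1) ^ (j + 1) := by
  rw [Fin.sum_univ_eq_sum_range (fun k => n / (R + 1) ^ (d - k)),
    ← Finset.sum_range_reflect (fun j => n / (R + 1) ^ (j + 1))]
  refine Finset.sum_congr rfl fun k hk => ?_
  have := Finset.mem_range.1 hk
  congr 2
  omega

theorem sum_pair (p : Fin d → ℕ × Fin (R + 1)) :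
    ∑ i, (R * (p i).1 + ((p i).2 : ℕ)) = R * ∑ i, (p i).1 + ∑ i, ((p i).2 : ℕ) := by
  rw [Finset.sum_add_distrib, Finset.mul_sum]

variable {R d t}

theorem num_digit (p : Fin d → ℕ × Fin (R + 1)) (k : ℕ) (hk : k < d) :
    num R d t p / (R + 1) ^ k % (R + 1) = dg R d p k :=
  val_digit _ _ _ d (fun k _ => dg_lt R d p k) k hk

theorem floor_sum_p {p : Fin d → ℕ × Fin (R + 1)} (hp : p ∈ Prs R d t) :
    R * ∑ k : Fin d, num R d t p / (R + 1) ^ (d - (k : ℕ)) + R * t =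
      num R d t p + R * ∑ i, (p i).1 := by
  have h1 := floor_sum R (num R d t p) d
  rw [← sum_refl] at h1
  have h2 : ∑ k ∈ Finset.range d, num R d t p / (R + 1) ^ k % (R + 1) = ∑ i, ((p i).2 : ℕ) := by
    rw [← sum_dg]
    exact Finset.sum_congr rfl fun k hk => num_digit p k (Finset.mem_range.1 hk)
  have h3 : num R d t p / (R + 1) ^ d = R * t - ∑ i, (R * (p i).1 + ((p i).2 : ℕ)) :=
    val_div _ _ _ d (fun k _ => dg_lt R d p k)
  have h4 : ∑ i, (R * (p i).1 + ((p i).2 : ℕ)) ≤ R * t := hp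
  rw [h2, h3] at h1
  rw [sum_pair] at h1 h4
  omega

theorem sum_pt (p : Fin d → ℕ × Fin (R + 1)) : ∑ k, pt R d t p k =
    ((∑ i, (p i).1 : ℕ) : ℤ) - ((∑ k : Fin d, num R d t p / (R + 1) ^ (d - (k : ℕ)) : ℕ) : ℤ) := by
  unfold pt
  rw [Finset.sum_sub_distrib]
  push_cast
  rfl

theorem num_eq {p : Fin d → ℕ × Fin (R + 1)} (hp : p ∈ Prs R d t) :
    (R : ℤ) * ((t : ℤ) - ∑ k, pt R d t p k) = (num R d t p : ℤ) := by
  have h1 := floor_sum_p hp
  rw [sum_pt]
  have h2 : (R : ℤ) * ((∑ k : Fin d, num R d t p / (R + 1) ^ (d - (k : ℕ)) : ℕ) : ℤ) +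
      (R : ℤ) * t = (num R d t p : ℤ) + (R : ℤ) * ((∑ i, (p i).1 : ℕ) : ℤ) := by
    exact_mod_cast h1
  linear_combination h2

/-- the points of the dilates, with `r = R + 1` -/
def Pts (R d t : ℕ) : Set (Fin d → ℤ) := {x | 0 ≤ (t : ℤ) - ∑ k, x k ∧
  ∀ k : Fin d, 0 ≤ ((R : ℤ) + 1) ^ (d - (k : ℕ)) * x k + (R : ℤ) * ((t : ℤ) - ∑ k, x k)}

theorem pt_mem (hR : 0 < R) {p : Fin d → ℕ × Fin (R + 1)} (hp : p ∈ Prs R d t) :
    pt R d t p ∈ Pts R d t := by
  have h1 := num_eq hp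
  refine ⟨?_, fun k => ?_⟩
  · have h2 : 0 ≤ (R : ℤ) * ((t : ℤ) - ∑ k, pt R d t p k) := by
      rw [h1]
      exact Int.natCast_nonneg _
    have h3 : (0 : ℤ) < R := by exact_mod_cast hR
    exact (mul_nonneg_iff_of_pos_left h3).1 h2
  · rw [h1]
    have h2 : num R d t p / (R + 1) ^ (d - (k : ℕ)) * (R + 1) ^ (d - (k : ℕ)) ≤ num R d t p :=
      Nat.div_mul_le_self _ _
    have h3 : ((num R d t p / (R + 1) ^ (d - (k : ℕ)) : ℕ) : ℤ) * ((R : ℤ) + 1) ^ (d - (k : ℕ)) ≤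
        (num R d t p : ℤ) := by exact_mod_cast h2
    have h4 : 0 ≤ ((R : ℤ) + 1) ^ (d - (k : ℕ)) * ((p k).1 : ℤ) := by positivity
    unfold pt
    rw [mul_sub]
    linarith

theorem pt_inj {p q : Fin d → ℕ × Fin (R + 1)} (hp : p ∈ Prs R d t) (hq : q ∈ Prs R d t)
    (h : pt R d t p = pt R d t q) : p = q := by
  have h1 : num R d t p = num R d t q := by
    have h2 := num_eq hp
    rw [h, num_eq hq] at h2
    exact_mod_cast h2.symm
  funext k
  refine Prod.ext ?_ (Fin.ext ?_)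
  · have h3 := congrFun h k
    unfold pt at h3
    rw [h1] at h3
    have h4 : ((p k).1 : ℤ) = ((q k).1 : ℤ) := by linarith
    exact_mod_cast h4
  · rw [← dg_fin R d p k, ← dg_fin R d q k, ← num_digit (t := t) p k k.2, ← num_digit (t := t) q k k.2,
      h1]

theorem pt_surj (hR : 0 < R) {x : Fin d → ℤ} (hx : x ∈ Pts R d t) :
    ∃ p ∈ Prs R d t, pt R d t p = x := by
  obtain ⟨h1, h2⟩ := hx
  obtain ⟨s, hs⟩ := Int.eq_ofNat_of_zero_le h1
  set n := R * s with hn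
  have hns : (R : ℤ) * ((t : ℤ) - ∑ k, x k) = (n : ℤ) := by rw [hs, hn]; push_cast; rfl
  have hy : ∀ k : Fin d, 0 ≤ x k + ((n / (R + 1) ^ (d - (k : ℕ)) : ℕ) : ℤ) := by
    intro k
    have h3 := h2 k
    rw [hns] at h3
    have h4 : -x k ≤ (n : ℤ) / (((R : ℤ) + 1) ^ (d - (k : ℕ))) := by
      rw [Int.le_ediv_iff_mul_le (by positivity)]
      linarith
    have h5 : (n : ℤ) / (((R : ℤ) + 1) ^ (d - (k : ℕ))) =
        ((n / (R + 1) ^ (d - (k : ℕ)) : ℕ) : ℤ) := by push_cast; rfl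
    rw [h5] at h4
    linarith
  set p : Fin d → ℕ × Fin (R + 1) := fun k =>
    ((x k + ((n / (R + 1) ^ (d - (k : ℕ)) : ℕ) : ℤ)).toNat,
      ⟨n / (R + 1) ^ (k : ℕ) % (R + 1), Nat.mod_lt _ (Nat.succ_pos R)⟩) with hp
  have hp1 : ∀ k, ((p k).1 : ℤ) = x k + ((n / (R + 1) ^ (d - (k : ℕ)) : ℕ) : ℤ) := fun k =>
    Int.toNat_of_nonneg (hy k)
  have hp2 : ∀ k : Fin d, ((p k).2 : ℕ) = n / (R + 1) ^ (k : ℕ) % (R + 1) := fun k => rfl
  have hsum : R * ∑ i, (p i).1 + ∑ i, ((p i).2 : ℕ) + n / (R + 1) ^ d = R * t := by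
    have h3 := floor_sum R n d
    rw [← sum_refl] at h3
    have h4 : ∑ i, ((p i).2 : ℕ) = ∑ k ∈ Finset.range d, n / (R + 1) ^ k % (R + 1) := by
      rw [← Fin.sum_univ_eq_sum_range (fun k => n / (R + 1) ^ k % (R + 1))]
    have h5 : ((∑ i, (p i).1 : ℕ) : ℤ) = ∑ k, x k +
        ((∑ k : Fin d, n / (R + 1) ^ (d - (k : ℕ)) : ℕ) : ℤ) := by
      rw [Nat.cast_sum, Finset.sum_congr rfl fun k _ => hp1 k, Finset.sum_add_distrib]
      push_cast
      rfl
    rw [h4]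
    have h6 : (R : ℤ) * ((∑ k : Fin d, n / (R + 1) ^ (d - (k : ℕ)) : ℕ) : ℤ) +
        ((∑ k ∈ Finset.range d, n / (R + 1) ^ k % (R + 1) : ℕ) : ℤ) +
        ((n / (R + 1) ^ d : ℕ) : ℤ) = (n : ℤ) := by exact_mod_cast h3
    have h7 : (R : ℤ) * ((∑ i, (p i).1 : ℕ) : ℤ) +
        ((∑ k ∈ Finset.range d, n / (R + 1) ^ k % (R + 1) : ℕ) : ℤ) +
        ((n / (R + 1) ^ d : ℕ) : ℤ) = (R : ℤ) * (t : ℤ) := by
      rw [h5]
      linear_combination h6 - hns
    exact_mod_cast h7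
  have hmem : p ∈ Prs R d t := by
    show ∑ i, (R * (p i).1 + ((p i).2 : ℕ)) ≤ R * t
    rw [sum_pair, ← hsum]
    exact Nat.le_add_right _ _
  have hnum : num R d t p = n := by
    have h3 : R * t - ∑ i, (R * (p i).1 + ((p i).2 : ℕ)) = n / (R + 1) ^ d := by
      rw [sum_pair, ← hsum]
      exact Nat.add_sub_cancel_left _ _
    unfold num
    rw [h3]
    have h4 := val_self (R + 1) n d
    have h5 : val (R + 1) (dg R d p) (n / (R + 1) ^ d) d =
        val (R + 1) (fun k => n / (R + 1) ^ k % (R + 1)) (n / (R + 1) ^ d) d := by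
      unfold val
      congr 1
      refine Finset.sum_congr rfl fun k hk => ?_
      have hk' := Finset.mem_range.1 hk
      have h6 := dg_fin R d p ⟨k, hk'⟩
      rw [h6, hp2]
    rw [h5]
    exact h4
  refine ⟨p, hmem, ?_⟩
  funext k
  unfold pt
  rw [hnum, hp1]
  ring

theorem ncard_Pts (hR : 0 < R) : (Pts R d t).ncard = (Prs R d t).ncard :=
  (Set.ncard_congr (fun p _ => pt R d t p) (fun _ hp => pt_mem hR hp)
    (fun _ _ hp hq h => pt_inj hp hq h) (fun x hx => by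
      obtain ⟨p, hp, h⟩ := pt_surj hR hx
      exact ⟨p, hp, h⟩)).symm

theorem count_eq (hR : 0 < R) : latticePointCount (baseSimplex (R + 1) d) t = (Prs R d t).ncard := by
  rw [← ncard_Pts hR]
  unfold latticePointCount
  congr 1
  ext x
  have h := lattice_mem_iff (r := R + 1) (d := d) (by omega) t x
  have e : (((R + 1 : ℕ) : ℤ)) = (R : ℤ) + 1 := by push_cast; rfl
  rw [e] at h
  have e2 : (R : ℤ) + 1 - 1 = R := by ring
  rw [e2] at h
  exact h

end Pool.Agent.H65.EH
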