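import Pool.Agent.H65.EH.Pol

/-!
# The Ehrhart polynomials in dimension at most five

Closed forms; in dimension at most four all coefficients are positive for every `R = r - 1 ≥ 1`.
-/

set_option autoImplicit false

namespace Pool.Agent.H65.EH

open Polynomial

theorem poly_ext {p q : ℚ[X]} (h : ∀ t : ℕ, p.eval (t : ℚ) = q.eval (t : ℚ)) : p = q := by
  refine Polynomial.eq_of_infinite_eval_eq p q ?_
  refine Set.Infinite.mono (s := Set.range fun n : ℕ => (n : ℚ)) ?_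
    (Set.infinite_range_of_injective Nat.cast_injective)
  rintro _ ⟨t, rfl⟩
  exact h t

theorem cl_0_0 (R t : ℕ) : ((S ^ 0) ((E 0).comp (C (R : ℚ) * X))).eval (t : ℚ) =
    (1) := by
  rw [pow_zero, Module.End.one_apply]
  simp [E, Finset.prod_range_succ, Nat.factorial, eval_mul, eval_add]

theorem cl_1_0 (R t : ℕ) : ((S ^ 1) ((E 0).comp (C (R : ℚ) * X))).eval (t : ℚ) =
    (1) * (t : ℚ) := by
  rw [pow_succ', Module.End.mul_apply, S_eval]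
  simp_rw [cl_0_0]
  induction t with
  | zero => simp
  | succ t ih => rw [Finset.sum_range_succ, ih]; push_cast; ring

theorem cl_2_0 (R t : ℕ) : ((S ^ 2) ((E 0).comp (C (R : ℚ) * X))).eval (t : ℚ) =
    (-1 / 2) * (t : ℚ) + (1 / 2) * (t : ℚ) ^ 2 := by
  rw [pow_succ', Module.End.mul_apply, S_eval]
  simp_rw [cl_1_0]
  induction t with
  | zero => simp
  | succ t ih => rw [Finset.sum_range_succ, ih]; push_cast; ring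

theorem cl_3_0 (R t : ℕ) : ((S ^ 3) ((E 0).comp (C (R : ℚ) * X))).eval (t : ℚ) =
    (1 / 3) * (t : ℚ) + (-1 / 2) * (t : ℚ) ^ 2 + (1 / 6) * (t : ℚ) ^ 3 := by
  rw [pow_succ', Module.End.mul_apply, S_eval]
  simp_rw [cl_2_0]
  induction t with
  | zero => simp
  | succ t ih => rw [Finset.sum_range_succ, ih]; push_cast; ring

theorem cl_4_0 (R t : ℕ) : ((S ^ 4) ((E 0).comp (C (R : ℚ) * X))).eval (t : ℚ) =
    (-1 / 4) * (t : ℚ) + (11 / 24) * (t : ℚ) ^ 2 + (-1 / 4) * (t : ℚ) ^ 3 +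
      (1 / 24) * (t : ℚ) ^ 4 := by
  rw [pow_succ', Module.End.mul_apply, S_eval]
  simp_rw [cl_3_0]
  induction t with
  | zero => simp
  | succ t ih => rw [Finset.sum_range_succ, ih]; push_cast; ring

theorem cl_5_0 (R t : ℕ) : ((S ^ 5) ((E 0).comp (C (R : ℚ) * X))).eval (t : ℚ) =
    (1 / 5) * (t : ℚ) + (-5 / 12) * (t : ℚ) ^ 2 + (7 / 24) * (t : ℚ) ^ 3 +
      (-1 / 12) * (t : ℚ) ^ 4 + (1 / 120) * (t : ℚ) ^ 5 := by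
  rw [pow_succ', Module.End.mul_apply, S_eval]
  simp_rw [cl_4_0]
  induction t with
  | zero => simp
  | succ t ih => rw [Finset.sum_range_succ, ih]; push_cast; ring

theorem cl_0_1 (R t : ℕ) : ((S ^ 0) ((E 1).comp (C (R : ℚ) * X))).eval (t : ℚ) =
    (1) + (1) * (R : ℚ) * (t : ℚ) := by
  rw [pow_zero, Module.End.one_apply]
  simp [E, Finset.prod_range_succ, Nat.factorial, eval_mul, eval_add]
  ring

theorem cl_1_1 (R t : ℕ) : ((S ^ 1) ((E 1).comp (C (R : ℚ) * X))).eval (t : ℚ) =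
    (1) * (t : ℚ) + (-1 / 2) * (R : ℚ) * (t : ℚ) + (1 / 2) * (R : ℚ) * (t : ℚ) ^ 2 := by
  rw [pow_succ', Module.End.mul_apply, S_eval]
  simp_rw [cl_0_1]
  induction t with
  | zero => simp
  | succ t ih => rw [Finset.sum_range_succ, ih]; push_cast; ring

theorem cl_2_1 (R t : ℕ) : ((S ^ 2) ((E 1).comp (C (R : ℚ) * X))).eval (t : ℚ) =
    (-1 / 2) * (t : ℚ) + (1 / 3) * (R : ℚ) * (t : ℚ) + (1 / 2) * (t : ℚ) ^ 2 +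
      (-1 / 2) * (R : ℚ) * (t : ℚ) ^ 2 + (1 / 6) * (R : ℚ) * (t : ℚ) ^ 3 := by
  rw [pow_succ', Module.End.mul_apply, S_eval]
  simp_rw [cl_1_1]
  induction t with
  | zero => simp
  | succ t ih => rw [Finset.sum_range_succ, ih]; push_cast; ring

theorem cl_3_1 (R t : ℕ) : ((S ^ 3) ((E 1).comp (C (R : ℚ) * X))).eval (t : ℚ) =
    (1 / 3) * (t : ℚ) + (-1 / 4) * (R : ℚ) * (t : ℚ) + (-1 / 2) * (t : ℚ) ^ 2 +
      (11 / 24) * (R : ℚ) * (t : ℚ) ^ 2 + (1 / 6) * (t : ℚ) ^ 3 +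
      (-1 / 4) * (R : ℚ) * (t : ℚ) ^ 3 + (1 / 24) * (R : ℚ) * (t : ℚ) ^ 4 := by
  rw [pow_succ', Module.End.mul_apply, S_eval]
  simp_rw [cl_2_1]
  induction t with
  | zero => simp
  | succ t ih => rw [Finset.sum_range_succ, ih]; push_cast; ring

theorem cl_4_1 (R t : ℕ) : ((S ^ 4) ((E 1).comp (C (R : ℚ) * X))).eval (t : ℚ) =
    (-1 / 4) * (t : ℚ) + (1 / 5) * (R : ℚ) * (t : ℚ) + (11 / 24) * (t : ℚ) ^ 2 +
      (-5 / 12) * (R : ℚ) * (t : ℚ) ^ 2 + (-1 / 4) * (t : ℚ) ^ 3 +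
      (7 / 24) * (R : ℚ) * (t : ℚ) ^ 3 + (1 / 24) * (t : ℚ) ^ 4 +
      (-1 / 12) * (R : ℚ) * (t : ℚ) ^ 4 + (1 / 120) * (R : ℚ) * (t : ℚ) ^ 5 := by
  rw [pow_succ', Module.End.mul_apply, S_eval]
  simp_rw [cl_3_1]
  induction t with
  | zero => simp
  | succ t ih => rw [Finset.sum_range_succ, ih]; push_cast; ring

theorem cl_0_2 (R t : ℕ) : ((S ^ 0) ((E 2).comp (C (R : ℚ) * X))).eval (t : ℚ) =
    (1) + (3 / 2) * (R : ℚ) * (t : ℚ) + (1 / 2) * (R : ℚ) ^ 2 * (t : ℚ) ^ 2 := by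
  rw [pow_zero, Module.End.one_apply]
  simp [E, Finset.prod_range_succ, Nat.factorial, eval_mul, eval_add]
  ring

theorem cl_1_2 (R t : ℕ) : ((S ^ 1) ((E 2).comp (C (R : ℚ) * X))).eval (t : ℚ) =
    (1) * (t : ℚ) + (-3 / 4) * (R : ℚ) * (t : ℚ) + (1 / 12) * (R : ℚ) ^ 2 * (t : ℚ) +
      (3 / 4) * (R : ℚ) * (t : ℚ) ^ 2 + (-1 / 4) * (R : ℚ) ^ 2 * (t : ℚ) ^ 2 +
      (1 / 6) * (R : ℚ) ^ 2 * (t : ℚ) ^ 3 := by
  rw [pow_succ', Module.End.mul_apply, S_eval]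
  simp_rw [cl_0_2]
  induction t with
  | zero => simp
  | succ t ih => rw [Finset.sum_range_succ, ih]; push_cast; ring

theorem cl_2_2 (R t : ℕ) : ((S ^ 2) ((E 2).comp (C (R : ℚ) * X))).eval (t : ℚ) =
    (-1 / 2) * (t : ℚ) + (1 / 2) * (R : ℚ) * (t : ℚ) + (-1 / 12) * (R : ℚ) ^ 2 * (t : ℚ) +
      (1 / 2) * (t : ℚ) ^ 2 + (-3 / 4) * (R : ℚ) * (t : ℚ) ^ 2 +
      (5 / 24) * (R : ℚ) ^ 2 * (t : ℚ) ^ 2 + (1 / 4) * (R : ℚ) * (t : ℚ) ^ 3 +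
      (-1 / 6) * (R : ℚ) ^ 2 * (t : ℚ) ^ 3 + (1 / 24) * (R : ℚ) ^ 2 * (t : ℚ) ^ 4 := by
  rw [pow_succ', Module.End.mul_apply, S_eval]
  simp_rw [cl_1_2]
  induction t with
  | zero => simp
  | succ t ih => rw [Finset.sum_range_succ, ih]; push_cast; ring

theorem cl_3_2 (R t : ℕ) : ((S ^ 3) ((E 2).comp (C (R : ℚ) * X))).eval (t : ℚ) =
    (1 / 3) * (t : ℚ) + (-3 / 8) * (R : ℚ) * (t : ℚ) + (3 / 40) * (R : ℚ) ^ 2 * (t : ℚ) +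
      (-1 / 2) * (t : ℚ) ^ 2 + (11 / 16) * (R : ℚ) * (t : ℚ) ^ 2 +
      (-3 / 16) * (R : ℚ) ^ 2 * (t : ℚ) ^ 2 + (1 / 6) * (t : ℚ) ^ 3 +
      (-3 / 8) * (R : ℚ) * (t : ℚ) ^ 3 + (1 / 6) * (R : ℚ) ^ 2 * (t : ℚ) ^ 3 +
      (1 / 16) * (R : ℚ) * (t : ℚ) ^ 4 + (-1 / 16) * (R : ℚ) ^ 2 * (t : ℚ) ^ 4 +
      (1 / 120) * (R : ℚ) ^ 2 * (t : ℚ) ^ 5 := by
  rw [pow_succ', Module.End.mul_apply, S_eval]
  simp_rw [cl_2_2]
  induction t with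
  | zero => simp
  | succ t ih => rw [Finset.sum_range_succ, ih]; push_cast; ring

theorem cl_0_3 (R t : ℕ) : ((S ^ 0) ((E 3).comp (C (R : ℚ) * X))).eval (t : ℚ) =
    (1) + (11 / 6) * (R : ℚ) * (t : ℚ) + (1) * (R : ℚ) ^ 2 * (t : ℚ) ^ 2 +
      (1 / 6) * (R : ℚ) ^ 3 * (t : ℚ) ^ 3 := by
  rw [pow_zero, Module.End.one_apply]
  simp [E, Finset.prod_range_succ, Nat.factorial, eval_mul, eval_add]
  ring

theorem cl_1_3 (R t : ℕ) : ((S ^ 1) ((E 3).comp (C (R : ℚ) * X))).eval (t : ℚ) =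
    (1) * (t : ℚ) + (-11 / 12) * (R : ℚ) * (t : ℚ) + (1 / 6) * (R : ℚ) ^ 2 * (t : ℚ) +
      (11 / 12) * (R : ℚ) * (t : ℚ) ^ 2 + (-1 / 2) * (R : ℚ) ^ 2 * (t : ℚ) ^ 2 +
      (1 / 24) * (R : ℚ) ^ 3 * (t : ℚ) ^ 2 + (1 / 3) * (R : ℚ) ^ 2 * (t : ℚ) ^ 3 +
      (-1 / 12) * (R : ℚ) ^ 3 * (t : ℚ) ^ 3 + (1 / 24) * (R : ℚ) ^ 3 * (t : ℚ) ^ 4 := by
  rw [pow_succ', Module.End.mul_apply, S_eval]
  simp_rw [cl_0_3]
  induction t with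
  | zero => simp
  | succ t ih => rw [Finset.sum_range_succ, ih]; push_cast; ring

theorem cl_2_3 (R t : ℕ) : ((S ^ 2) ((E 3).comp (C (R : ℚ) * X))).eval (t : ℚ) =
    (-1 / 2) * (t : ℚ) + (11 / 18) * (R : ℚ) * (t : ℚ) + (-1 / 6) * (R : ℚ) ^ 2 * (t : ℚ) +
      (1 / 180) * (R : ℚ) ^ 3 * (t : ℚ) + (1 / 2) * (t : ℚ) ^ 2 +
      (-11 / 12) * (R : ℚ) * (t : ℚ) ^ 2 + (5 / 12) * (R : ℚ) ^ 2 * (t : ℚ) ^ 2 +
      (-1 / 24) * (R : ℚ) ^ 3 * (t : ℚ) ^ 2 + (11 / 36) * (R : ℚ) * (t : ℚ) ^ 3 +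
      (-1 / 3) * (R : ℚ) ^ 2 * (t : ℚ) ^ 3 + (5 / 72) * (R : ℚ) ^ 3 * (t : ℚ) ^ 3 +
      (1 / 12) * (R : ℚ) ^ 2 * (t : ℚ) ^ 4 + (-1 / 24) * (R : ℚ) ^ 3 * (t : ℚ) ^ 4 +
      (1 / 120) * (R : ℚ) ^ 3 * (t : ℚ) ^ 5 := by
  rw [pow_succ', Module.End.mul_apply, S_eval]
  simp_rw [cl_1_3]
  induction t with
  | zero => simp
  | succ t ih => rw [Finset.sum_range_succ, ih]; push_cast; ring

theorem cl_0_4 (R t : ℕ) : ((S ^ 0) ((E 4).comp (C (R : ℚ) * X))).eval (t : ℚ) =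
    (1) + (25 / 12) * (R : ℚ) * (t : ℚ) + (35 / 24) * (R : ℚ) ^ 2 * (t : ℚ) ^ 2 +
      (5 / 12) * (R : ℚ) ^ 3 * (t : ℚ) ^ 3 + (1 / 24) * (R : ℚ) ^ 4 * (t : ℚ) ^ 4 := by
  rw [pow_zero, Module.End.one_apply]
  simp [E, Finset.prod_range_succ, Nat.factorial, eval_mul, eval_add]
  ring

theorem cl_1_4 (R t : ℕ) : ((S ^ 1) ((E 4).comp (C (R : ℚ) * X))).eval (t : ℚ) =
    (1) * (t : ℚ) + (-25 / 24) * (R : ℚ) * (t : ℚ) + (35 / 144) * (R : ℚ) ^ 2 * (t : ℚ) +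
      (-1 / 720) * (R : ℚ) ^ 4 * (t : ℚ) + (25 / 24) * (R : ℚ) * (t : ℚ) ^ 2 +
      (-35 / 48) * (R : ℚ) ^ 2 * (t : ℚ) ^ 2 + (5 / 48) * (R : ℚ) ^ 3 * (t : ℚ) ^ 2 +
      (35 / 72) * (R : ℚ) ^ 2 * (t : ℚ) ^ 3 + (-5 / 24) * (R : ℚ) ^ 3 * (t : ℚ) ^ 3 +
      (1 / 72) * (R : ℚ) ^ 4 * (t : ℚ) ^ 3 + (5 / 48) * (R : ℚ) ^ 3 * (t : ℚ) ^ 4 +
      (-1 / 48) * (R : ℚ) ^ 4 * (t : ℚ) ^ 4 + (1 / 120) * (R : ℚ) ^ 4 * (t : ℚ) ^ 5 := by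
  rw [pow_succ', Module.End.mul_apply, S_eval]
  simp_rw [cl_0_4]
  induction t with
  | zero => simp
  | succ t ih => rw [Finset.sum_range_succ, ih]; push_cast; ring

theorem cl_0_5 (R t : ℕ) : ((S ^ 0) ((E 5).comp (C (R : ℚ) * X))).eval (t : ℚ) =
    (1) + (137 / 60) * (R : ℚ) * (t : ℚ) + (15 / 8) * (R : ℚ) ^ 2 * (t : ℚ) ^ 2 +
      (17 / 24) * (R : ℚ) ^ 3 * (t : ℚ) ^ 3 + (1 / 8) * (R : ℚ) ^ 4 * (t : ℚ) ^ 4 +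
      (1 / 120) * (R : ℚ) ^ 5 * (t : ℚ) ^ 5 := by
  rw [pow_zero, Module.End.one_apply]
  simp [E, Finset.prod_range_succ, Nat.factorial, eval_mul, eval_add]
  ring

theorem ehr_1 (R : ℕ) : ehr R 1 =
    C ((1)) +
    C ((1) + (1) * (R : ℚ)) * X := by
  refine poly_ext fun t => ?_
  unfold ehr
  rw [eval_finsetSum]
  simp only [Finset.sum_range_succ, Finset.sum_range_zero, zero_add, eval_smul, smul_eq_mul,
    Nat.reduceSub, tsub_zero, tsub_self]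
  rw [cl_0_1, cl_1_0]
  simp only [eval_add, eval_mul, eval_C, eval_X, eval_pow]
  norm_num [Nat.choose]
  ring

theorem ehr_1_coeff_0 (R : ℕ) : (ehr R 1).coeff 0 = (1) := by
  rw [ehr_1]
  simp only [coeff_add, coeff_C_mul, coeff_X_pow, coeff_X, coeff_C]
  norm_num

theorem ehr_1_coeff_1 (R : ℕ) : (ehr R 1).coeff 1 = (1) + (1) * (R : ℚ) := by
  rw [ehr_1]
  simp only [coeff_add, coeff_C_mul, coeff_X_pow, coeff_X, coeff_C]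
  norm_num

theorem ehr_2 (R : ℕ) : ehr R 2 =
    C ((1)) +
    C ((3 / 2) + (1 / 2) * (R : ℚ)) * X +
    C ((1 / 2) + (1) * (R : ℚ) + (1 / 2) * (R : ℚ) ^ 2) * X ^ 2 := by
  refine poly_ext fun t => ?_
  unfold ehr
  rw [eval_finsetSum]
  simp only [Finset.sum_range_succ, Finset.sum_range_zero, zero_add, eval_smul, smul_eq_mul,
    Nat.reduceSub, tsub_zero, tsub_self]
  rw [cl_0_2, cl_1_1, cl_2_0]
  simp only [eval_add, eval_mul, eval_C, eval_X, eval_pow]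
  norm_num [Nat.choose]
  ring

theorem ehr_2_coeff_0 (R : ℕ) : (ehr R 2).coeff 0 = (1) := by
  rw [ehr_2]
  simp only [coeff_add, coeff_C_mul, coeff_X_pow, coeff_X, coeff_C]
  norm_num

theorem ehr_2_coeff_1 (R : ℕ) : (ehr R 2).coeff 1 = (3 / 2) + (1 / 2) * (R : ℚ) := by
  rw [ehr_2]
  simp only [coeff_add, coeff_C_mul, coeff_X_pow, coeff_X, coeff_C]
  norm_num

theorem ehr_2_coeff_2 (R : ℕ) : (ehr R 2).coeff 2 = (1 / 2) + (1) * (R : ℚ) + (1 / 2) * (R : ℚ) ^ 2 := by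
  rw [ehr_2]
  simp only [coeff_add, coeff_C_mul, coeff_X_pow, coeff_X, coeff_C]
  norm_num

theorem ehr_3 (R : ℕ) : ehr R 3 =
    C ((1)) +
    C ((11 / 6) + (7 / 12) * (R : ℚ) + (1 / 4) * (R : ℚ) ^ 2) * X +
    C ((1) + (3 / 4) * (R : ℚ) + (1 / 4) * (R : ℚ) ^ 2) * X ^ 2 +
    C ((1 / 6) + (1 / 2) * (R : ℚ) + (1 / 2) * (R : ℚ) ^ 2 + (1 / 6) * (R : ℚ) ^ 3) * X ^ 3 := by
  refine poly_ext fun t => ?_
  unfold ehr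
  rw [eval_finsetSum]
  simp only [Finset.sum_range_succ, Finset.sum_range_zero, zero_add, eval_smul, smul_eq_mul,
    Nat.reduceSub, tsub_zero, tsub_self]
  rw [cl_0_3, cl_1_2, cl_2_1, cl_3_0]
  simp only [eval_add, eval_mul, eval_C, eval_X, eval_pow]
  norm_num [Nat.choose]
  ring

theorem ehr_3_coeff_0 (R : ℕ) : (ehr R 3).coeff 0 = (1) := by
  rw [ehr_3]
  simp only [coeff_add, coeff_C_mul, coeff_X_pow, coeff_X, coeff_C]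
  norm_num

theorem ehr_3_coeff_1 (R : ℕ) : (ehr R 3).coeff 1 = (11 / 6) + (7 / 12) * (R : ℚ) + (1 / 4) * (R : ℚ) ^ 2 := by
  rw [ehr_3]
  simp only [coeff_add, coeff_C_mul, coeff_X_pow, coeff_X, coeff_C]
  norm_num

theorem ehr_3_coeff_2 (R : ℕ) : (ehr R 3).coeff 2 = (1) + (3 / 4) * (R : ℚ) + (1 / 4) * (R : ℚ) ^ 2 := by
  rw [ehr_3]
  simp only [coeff_add, coeff_C_mul, coeff_X_pow, coeff_X, coeff_C]
  norm_num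

theorem ehr_3_coeff_3 (R : ℕ) : (ehr R 3).coeff 3 = (1 / 6) + (1 / 2) * (R : ℚ) + (1 / 2) * (R : ℚ) ^ 2 + (1 / 6) * (R : ℚ) ^ 3 := by
  rw [ehr_3]
  simp only [coeff_add, coeff_C_mul, coeff_X_pow, coeff_X, coeff_C]
  norm_num

theorem ehr_4 (R : ℕ) : ehr R 4 =
    C ((1)) +
    C ((25 / 12) + (5 / 12) * (R : ℚ) + (1 / 6) * (R : ℚ) ^ 2) * X +
    C ((35 / 24) + (1) * (R : ℚ) + (17 / 24) * (R : ℚ) ^ 2 + (1 / 6) * (R : ℚ) ^ 3) * X ^ 2 +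
    C ((5 / 12) + (1 / 2) * (R : ℚ) + (1 / 3) * (R : ℚ) ^ 2 + (1 / 12) * (R : ℚ) ^ 3) * X ^ 3 +
    C ((1 / 24) + (1 / 6) * (R : ℚ) + (1 / 4) * (R : ℚ) ^ 2 + (1 / 6) * (R : ℚ) ^ 3 + (1 / 24) * (R : ℚ) ^ 4) * X ^ 4 := by
  refine poly_ext fun t => ?_
  unfold ehr
  rw [eval_finsetSum]
  simp only [Finset.sum_range_succ, Finset.sum_range_zero, zero_add, eval_smul, smul_eq_mul,
    Nat.reduceSub, tsub_zero, tsub_self]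
  rw [cl_0_4, cl_1_3, cl_2_2, cl_3_1, cl_4_0]
  simp only [eval_add, eval_mul, eval_C, eval_X, eval_pow]
  norm_num [Nat.choose]
  ring

theorem ehr_4_coeff_0 (R : ℕ) : (ehr R 4).coeff 0 = (1) := by
  rw [ehr_4]
  simp only [coeff_add, coeff_C_mul, coeff_X_pow, coeff_X, coeff_C]
  norm_num

theorem ehr_4_coeff_1 (R : ℕ) : (ehr R 4).coeff 1 = (25 / 12) + (5 / 12) * (R : ℚ) + (1 / 6) * (R : ℚ) ^ 2 := by
  rw [ehr_4]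
  simp only [coeff_add, coeff_C_mul, coeff_X_pow, coeff_X, coeff_C]
  norm_num

theorem ehr_4_coeff_2 (R : ℕ) : (ehr R 4).coeff 2 = (35 / 24) + (1) * (R : ℚ) + (17 / 24) * (R : ℚ) ^ 2 + (1 / 6) * (R : ℚ) ^ 3 := by
  rw [ehr_4]
  simp only [coeff_add, coeff_C_mul, coeff_X_pow, coeff_X, coeff_C]
  norm_num

theorem ehr_4_coeff_3 (R : ℕ) : (ehr R 4).coeff 3 = (5 / 12) + (1 / 2) * (R : ℚ) + (1 / 3) * (R : ℚ) ^ 2 + (1 / 12) * (R : ℚ) ^ 3 := by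
  rw [ehr_4]
  simp only [coeff_add, coeff_C_mul, coeff_X_pow, coeff_X, coeff_C]
  norm_num

theorem ehr_4_coeff_4 (R : ℕ) : (ehr R 4).coeff 4 = (1 / 24) + (1 / 6) * (R : ℚ) + (1 / 4) * (R : ℚ) ^ 2 + (1 / 6) * (R : ℚ) ^ 3 + (1 / 24) * (R : ℚ) ^ 4 := by
  rw [ehr_4]
  simp only [coeff_add, coeff_C_mul, coeff_X_pow, coeff_X, coeff_C]
  norm_num

theorem ehr_5 (R : ℕ) : ehr R 5 =
    C ((1)) +
    C ((137 / 60) + (157 / 360) * (R : ℚ) + (43 / 144) * (R : ℚ) ^ 2 + (1 / 18) * (R : ℚ) ^ 3 + (-1 / 144) * (R : ℚ) ^ 4) * X +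
    C ((15 / 8) + (5 / 6) * (R : ℚ) + (25 / 48) * (R : ℚ) ^ 2 + (5 / 48) * (R : ℚ) ^ 3) * X ^ 2 +
    C ((17 / 24) + (55 / 72) * (R : ℚ) + (55 / 72) * (R : ℚ) ^ 2 + (13 / 36) * (R : ℚ) ^ 3 + (5 / 72) * (R : ℚ) ^ 4) * X ^ 3 +
    C ((1 / 8) + (5 / 24) * (R : ℚ) + (5 / 24) * (R : ℚ) ^ 2 + (5 / 48) * (R : ℚ) ^ 3 + (1 / 48) * (R : ℚ) ^ 4) * X ^ 4 +
    C ((1 / 120) + (1 / 24) * (R : ℚ) + (1 / 12) * (R : ℚ) ^ 2 + (1 / 12) * (R : ℚ) ^ 3 + (1 / 24) * (R : ℚ) ^ 4 + (1 / 120) * (R : ℚ) ^ 5) * X ^ 5 := by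
  refine poly_ext fun t => ?_
  unfold ehr
  rw [eval_finsetSum]
  simp only [Finset.sum_range_succ, Finset.sum_range_zero, zero_add, eval_smul, smul_eq_mul,
    Nat.reduceSub, tsub_zero, tsub_self]
  rw [cl_0_5, cl_1_4, cl_2_3, cl_3_2, cl_4_1, cl_5_0]
  simp only [eval_add, eval_mul, eval_C, eval_X, eval_pow]
  norm_num [Nat.choose]
  ring

theorem ehr_5_coeff_0 (R : ℕ) : (ehr R 5).coeff 0 = (1) := by
  rw [ehr_5]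
  simp only [coeff_add, coeff_C_mul, coeff_X_pow, coeff_X, coeff_C]
  norm_num

theorem ehr_5_coeff_1 (R : ℕ) : (ehr R 5).coeff 1 = (137 / 60) + (157 / 360) * (R : ℚ) + (43 / 144) * (R : ℚ) ^ 2 + (1 / 18) * (R : ℚ) ^ 3 + (-1 / 144) * (R : ℚ) ^ 4 := by
  rw [ehr_5]
  simp only [coeff_add, coeff_C_mul, coeff_X_pow, coeff_X, coeff_C]
  norm_num

theorem ehr_5_coeff_2 (R : ℕ) : (ehr R 5).coeff 2 = (15 / 8) + (5 / 6) * (R : ℚ) + (25 / 48) * (R : ℚ) ^ 2 + (5 / 48) * (R : ℚ) ^ 3 := by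
  rw [ehr_5]
  simp only [coeff_add, coeff_C_mul, coeff_X_pow, coeff_X, coeff_C]
  norm_num

theorem ehr_5_coeff_3 (R : ℕ) : (ehr R 5).coeff 3 = (17 / 24) + (55 / 72) * (R : ℚ) + (55 / 72) * (R : ℚ) ^ 2 + (13 / 36) * (R : ℚ) ^ 3 + (5 / 72) * (R : ℚ) ^ 4 := by
  rw [ehr_5]
  simp only [coeff_add, coeff_C_mul, coeff_X_pow, coeff_X, coeff_C]
  norm_num

theorem ehr_5_coeff_4 (R : ℕ) : (ehr R 5).coeff 4 = (1 / 8) + (5 / 24) * (R : ℚ) + (5 / 24) * (R : ℚ) ^ 2 + (5 / 48) * (R : ℚ) ^ 3 + (1 / 48) * (R : ℚ) ^ 4 := by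
  rw [ehr_5]
  simp only [coeff_add, coeff_C_mul, coeff_X_pow, coeff_X, coeff_C]
  norm_num

theorem ehr_5_coeff_5 (R : ℕ) : (ehr R 5).coeff 5 = (1 / 120) + (1 / 24) * (R : ℚ) + (1 / 12) * (R : ℚ) ^ 2 + (1 / 12) * (R : ℚ) ^ 3 + (1 / 24) * (R : ℚ) ^ 4 + (1 / 120) * (R : ℚ) ^ 5 := by
  rw [ehr_5]
  simp only [coeff_add, coeff_C_mul, coeff_X_pow, coeff_X, coeff_C]
  norm_num

end Pool.Agent.H65.EH
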