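import Pool.Agent.H65.EH.Asy
import Pool.Agent.H65.EH.Low

/-!
# Ehrhart positivity of the base simplices: the dimensions
-/

set_option autoImplicit false

namespace Pool.Agent.H65.EH

open Polynomial Filter Topology

theorem pos_low {R d : ℕ} (hR : 0 < R) (hd : 1 ≤ d) (hd4 : d ≤ 4) :
    EhrhartPositive (baseSimplex (R + 1) d) := by
  refine ⟨ehr R d, isEhrhart R d hR, fun k hk => ?_⟩
  have hRq : (0 : ℚ) < R := by exact_mod_cast hR
  have h1 : d = 1 ∨ d = 2 ∨ d = 3 ∨ d = 4 := by omega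
  rcases h1 with rfl | rfl | rfl | rfl
  · interval_cases k
    · rw [ehr_1_coeff_0]; positivity
    · rw [ehr_1_coeff_1]; positivity
  · interval_cases k
    · rw [ehr_2_coeff_0]; positivity
    · rw [ehr_2_coeff_1]; positivity
    · rw [ehr_2_coeff_2]; positivity
  · interval_cases k
    · rw [ehr_3_coeff_0]; positivity
    · rw [ehr_3_coeff_1]; positivity
    · rw [ehr_3_coeff_2]; positivity
    · rw [ehr_3_coeff_3]; positivity
  · interval_cases k
    · rw [ehr_4_coeff_0]; positivity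
    · rw [ehr_4_coeff_1]; positivity
    · rw [ehr_4_coeff_2]; positivity
    · rw [ehr_4_coeff_3]; positivity
    · rw [ehr_4_coeff_4]; positivity

theorem neg_large (e : ℕ) : ∀ᶠ r : ℕ in atTop, (ehr (r - 1) (e + 5)).coeff (e + 1) < 0 := by
  have h1 : (-((e : ℝ) + 5) / (720 * ((e + 1).factorial : ℝ))) < 0 := by
    apply div_neg_of_neg_of_pos
    · have : (0 : ℝ) ≤ e := Nat.cast_nonneg e
      linarith
    · positivity
  filter_upwards [(ehr_tendsto e).eventually (gt_mem_nhds h1), eventually_ge_atTop 1] with r h2 h3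
  have h4 : (0 : ℝ) < (r : ℝ) ^ (e + 4) := by positivity
  have h5 : (((ehr (r - 1) (e + 5)).coeff (e + 1) : ℚ) : ℝ) < 0 := by
    by_contra hcon
    push Not at hcon
    exact absurd h2 (not_lt.2 (div_nonneg hcon h4.le))
  exact_mod_cast h5

theorem not_pos {R d k : ℕ} (hR : 0 < R) (hk : k ≤ d) (h : (ehr R d).coeff k < 0) :
    ¬ EhrhartPositive (baseSimplex (R + 1) d) := by
  rintro ⟨p, hp, hpos⟩
  have h1 := isEhrhart_unique hp (isEhrhart R d hR)
  have h2 := hpos k hk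
  rw [h1] at h2
  exact absurd h (not_lt.2 h2.le)

theorem finite_pos (d : ℕ) (hd : 5 ≤ d) :
    {r : ℕ | 2 ≤ r ∧ EhrhartPositive (baseSimplex r d)}.Finite := by
  obtain ⟨e, rfl⟩ : ∃ e, d = e + 5 := ⟨d - 5, by omega⟩
  obtain ⟨r₀, hr₀⟩ := Filter.eventually_atTop.1 (neg_large e)
  refine (Set.finite_lt_nat r₀).subset ?_
  rintro r ⟨h2, h3⟩
  by_contra hcon
  have h4 : r₀ ≤ r := not_lt.1 hcon
  have h5 := hr₀ r h4
  obtain ⟨R, rfl⟩ : ∃ R, r = R + 1 := ⟨r - 1, by omega⟩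
  rw [Nat.add_sub_cancel] at h5
  exact not_pos (by omega) (by omega) h5 h3

theorem pos_iff (d : ℕ) (hd : 1 ≤ d) :
    (∀ r : ℕ, 2 ≤ r → EhrhartPositive (baseSimplex r d)) ↔ d ≤ 4 := by
  constructor
  · intro h
    by_contra hcon
    have h1 := finite_pos d (by omega)
    refine h1.not_infinite ?_
    have h2 : {r : ℕ | 2 ≤ r ∧ EhrhartPositive (baseSimplex r d)} = {r : ℕ | 2 ≤ r} := by
      ext r
      exact ⟨fun h3 => h3.1, fun h3 => ⟨h3, h r h3⟩⟩
    rw [h2]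
    exact Set.infinite_of_not_bddAbove (by
      rintro ⟨M, hM⟩
      have := hM (show M + 2 ∈ {r : ℕ | 2 ≤ r} by show 2 ≤ M + 2; omega)
      omega)
  · intro h r hr
    obtain ⟨R, rfl⟩ : ∃ R, r = R + 1 := ⟨r - 1, by omega⟩
    exact pos_low (by omega) hd h

/-- dimension five -/
theorem five_iff (r : ℕ) (hr : 2 ≤ r) : EhrhartPositive (baseSimplex r 5) ↔ r ≤ 13 := by
  obtain ⟨R, rfl⟩ : ∃ R, r = R + 1 := ⟨r - 1, by omega⟩
  constructor
  · intro h
    by_contra hcon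
    refine not_pos (k := 1) (by omega) (by omega) ?_ h
    rw [ehr_5_coeff_1]
    have h1 : (13 : ℚ) ≤ R := by exact_mod_cast (by omega : 13 ≤ R)
    have h2 : (0 : ℚ) ≤ (R : ℚ) - 13 := by linarith
    have h3 : (137 / 60) + (157 / 360) * (R : ℚ) + (43 / 144) * (R : ℚ) ^ 2 +
        (1 / 18) * (R : ℚ) ^ 3 + (-1 / 144) * (R : ℚ) ^ 4 =
        -(268 / 15 + 4439 / 180 * ((R : ℚ) - 13) + 659 / 144 * ((R : ℚ) - 13) ^ 2 +
          11 / 36 * ((R : ℚ) - 13) ^ 3 + 1 / 144 * ((R : ℚ) - 13) ^ 4) := by ring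
    rw [h3, neg_lt_zero]
    positivity
  · intro h
    have hR : 0 < R := by omega
    have hRq : (0 : ℚ) < R := by exact_mod_cast hR
    refine ⟨ehr R 5, isEhrhart R 5 hR, fun k hk => ?_⟩
    interval_cases k
    · rw [ehr_5_coeff_0]; positivity
    · rw [ehr_5_coeff_1]
      have h1 : R ≤ 12 := by omega
      interval_cases R <;> norm_num
    · rw [ehr_5_coeff_2]; positivity
    · rw [ehr_5_coeff_3]; positivity
    · rw [ehr_5_coeff_4]; positivity
    · rw [ehr_5_coeff_5]; positivity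

theorem asymptotic (d : ℕ) (hd : 5 ≤ d) : ∃ p : ℕ → ℚ[X],
    (∀ r : ℕ, 2 ≤ r → IsEhrhartPolynomial (baseSimplex r d) (p r)) ∧
    Tendsto (fun r : ℕ => (((p r).coeff (d - 4) : ℚ) : ℝ) / (r : ℝ) ^ (d - 1)) atTop
      (𝓝 (-(d : ℝ) / (720 * ((d - 4).factorial : ℝ)))) := by
  obtain ⟨e, rfl⟩ : ∃ e, d = e + 5 := ⟨d - 5, by omega⟩
  refine ⟨fun r => ehr (r - 1) (e + 5), fun r hr => ?_, ?_⟩
  · obtain ⟨R, rfl⟩ : ∃ R, r = R + 1 := ⟨r - 1, by omega⟩
    exact isEhrhart R (e + 5) (by omega)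
  · have h := ehr_tendsto e
    have e1 : e + 5 - 4 = e + 1 := by omega
    have e2 : e + 5 - 1 = e + 4 := by omega
    rw [e1, e2]
    push_cast
    exact h

theorem old : ∃ p : ℚ[X], IsEhrhartPolynomial (baseSimplex 14 5) p ∧ p.coeff 1 = -268 / 15 := by
  refine ⟨ehr 13 5, isEhrhart 13 5 (by norm_num), ?_⟩
  rw [ehr_5_coeff_1]
  norm_num

end Pool.Agent.H65.EH
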