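import Pool.Agent.H65.EH.Dig

/-!
# The generating function of the families of pairs

`∑_M #{p : Fin d → ℕ × Fin (R+1) | ∑ (R y_i + c_i) ≤ M} x^M = (g + q)^d g` with `g = ∑ x^m`,
`q = ∑_{i ≥ 1} x^(R i)`.
-/

set_option autoImplicit false

namespace Pool.Agent.H65.EH

open PowerSeries

/-- the weight of a pair -/
def wt (R : ℕ) (q : ℕ × Fin (R + 1)) : ℕ := R * q.1 + (q.2 : ℕ)

/-- families of pairs of total weight at most `M` -/
def Fm (R d M : ℕ) : Type := {p : Fin d → ℕ × Fin (R + 1) // ∑ i, wt R (p i) ≤ M}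

/-- pairs of weight `i` -/
def Pr (R i : ℕ) : Type := {q : ℕ × Fin (R + 1) // wt R q = i}

theorem finite_box (R M : ℕ) (hR : 0 < R) : Finite {q : ℕ × Fin (R + 1) // wt R q ≤ M} := by
  have : Finite ({n : ℕ // n ≤ M} × Fin (R + 1)) := inferInstance
  refine Finite.of_injective (fun q : {q : ℕ × Fin (R + 1) // wt R q ≤ M} =>
    ((⟨q.1.1, ?_⟩, q.1.2) : {n : ℕ // n ≤ M} × Fin (R + 1))) ?_
  · have h := q.2
    unfold wt at h
    have h1 : q.1.1 ≤ R * q.1.1 := Nat.le_mul_of_pos_left _ hR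
    omega
  · rintro ⟨⟨a, b⟩, h⟩ ⟨⟨a', b'⟩, h'⟩ he
    simp only [Prod.mk.injEq, Subtype.mk.injEq] at he
    exact Subtype.ext (Prod.ext he.1 he.2)

theorem finite_Pr (R i : ℕ) (hR : 0 < R) : Finite (Pr R i) := by
  have := finite_box R i hR
  exact Finite.of_injective (fun q : Pr R i =>
    (⟨q.1, q.2.le⟩ : {q : ℕ × Fin (R + 1) // wt R q ≤ i}))
    fun a b h => Subtype.ext (Subtype.mk.inj h)

theorem finite_Fm (R d M : ℕ) (hR : 0 < R) : Finite (Fm R d M) := by
  have := finite_box R M hR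
  refine Finite.of_injective (fun p : Fm R d M => fun i : Fin d =>
    (⟨p.1 i, (Finset.single_le_sum (f := fun i => wt R (p.1 i)) (fun _ _ => Nat.zero_le _)
      (Finset.mem_univ i)).trans p.2⟩ : {q : ℕ × Fin (R + 1) // wt R q ≤ M})) ?_
  intro p p' h
  refine Subtype.ext (funext fun i => ?_)
  exact congrArg Subtype.val (congrFun h i)

/-- splitting off the first pair -/
def splitEquiv (R d M : ℕ) :
    Fm R (d + 1) M ≃ Σ i : Fin (M + 1), Pr R i × Fm R d (M - i) where
  toFun p := ⟨⟨wt R (p.1 0), by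
      have h := p.2
      rw [Fin.sum_univ_succ] at h
      omega⟩, ⟨p.1 0, rfl⟩, ⟨fun i => p.1 i.succ, by
      have h := p.2
      rw [Fin.sum_univ_succ] at h
      show ∑ i : Fin d, wt R (p.1 i.succ) ≤ M - wt R (p.1 0)
      omega⟩⟩
  invFun x := ⟨Fin.cons x.2.1.1 x.2.2.1, by
      rw [Fin.sum_univ_succ]
      have h1 := x.2.1.2
      have h2 := x.2.2.2
      have h3 := x.1.2
      simp only [Fin.cons_zero, Fin.cons_succ]
      omega⟩
  left_inv p := by
    refine Subtype.ext ?_
    funext i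
    refine Fin.cases ?_ (fun j => ?_) i
    · rfl
    · rfl
  right_inv x := by
    obtain ⟨⟨i, hi⟩, ⟨q, hq⟩, ⟨p, hp⟩⟩ := x
    have hq' : wt R q = i := hq
    subst hq'
    rfl

theorem card_split (R d M : ℕ) (hR : 0 < R) : Nat.card (Fm R (d + 1) M) =
    ∑ i : Fin (M + 1), Nat.card (Pr R i) * Nat.card (Fm R d (M - i)) := by
  have h1 := fun i => finite_Pr R i hR
  have h2 := fun m => finite_Fm R d m hR
  rw [Nat.card_congr (splitEquiv R d M), Nat.card_sigma]
  exact Finset.sum_congr rfl fun i _ => Nat.card_prod _ _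

theorem card_Pr (R i : ℕ) (hR : 0 < R) :
    Nat.card (Pr R i) = 1 + if 0 < i ∧ R ∣ i then 1 else 0 := by
  have h0 : Nat.card (Pr R i) = ({q : ℕ × Fin (R + 1) | wt R q = i}).ncard := rfl
  rw [h0]
  have hmod : i % R < R + 1 := (Nat.mod_lt i hR).trans (Nat.lt_succ_self R)
  split_ifs with h
  · obtain ⟨h1, k, rfl⟩ := h
    have hk : 0 < k := by
      rcases Nat.eq_zero_or_pos k with h2 | h2
      · rw [h2, Nat.mul_zero] at h1
        exact absurd h1 (lt_irrefl _)
      · exact h2
    have hset : {q : ℕ × Fin (R + 1) | wt R q = R * k} =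
        {(k, (⟨0, Nat.succ_pos R⟩ : Fin (R + 1))), (k - 1, ⟨R, Nat.lt_succ_self R⟩)} := by
      ext ⟨a, ⟨c, hc⟩⟩
      simp only [wt, Set.mem_ofPred_eq, Set.mem_insert_iff, Set.mem_singleton_iff, Prod.mk.injEq,
        Fin.mk.injEq]
      constructor
      · intro he
        rcases lt_trichotomy a k with h2 | h2 | h2
        · right
          have h3 : R * (a + 1) ≤ R * k := Nat.mul_le_mul_left R h2
          rw [Nat.mul_add, Nat.mul_one] at h3
          have h4 : c = R := by omega
          subst h4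
          have h5 : c * (a + 1) = c * k := by rw [Nat.mul_add, Nat.mul_one]; exact he
          have h6 := Nat.eq_of_mul_eq_mul_left hR h5
          exact ⟨by omega, rfl⟩
        · left
          subst h2
          exact ⟨rfl, by omega⟩
        · exfalso
          have h3 : R * (k + 1) ≤ R * a := Nat.mul_le_mul_left R h2
          rw [Nat.mul_add, Nat.mul_one] at h3
          omega
      · rintro (⟨rfl, rfl⟩ | ⟨rfl, rfl⟩)
        · omega
        · obtain ⟨m, rfl⟩ : ∃ m, k = m + 1 := ⟨k - 1, by omega⟩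
          rw [Nat.add_sub_cancel, Nat.mul_add, Nat.mul_one]
    rw [hset, Set.ncard_pair]
    intro he
    have h2 := congrArg Prod.fst he
    simp only at h2
    omega
  · have hset : {q : ℕ × Fin (R + 1) | wt R q = i} = {(i / R, ⟨i % R, hmod⟩)} := by
      ext ⟨a, ⟨c, hc⟩⟩
      simp only [wt, Set.mem_ofPred_eq, Set.mem_singleton_iff, Prod.mk.injEq, Fin.mk.injEq]
      constructor
      · intro he
        have hcR : c < R := by
          rcases Nat.lt_or_ge c R with h2 | h2
          · exact h2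
          · exfalso
            have h3 : c = R := by omega
            subst h3
            refine h ⟨by omega, a + 1, ?_⟩
            rw [Nat.mul_add, Nat.mul_one]
            exact he.symm
        subst he
        constructor
        · rw [Nat.mul_add_div hR, Nat.div_eq_of_lt hcR, Nat.add_zero]
        · rw [Nat.mul_add_mod, Nat.mod_eq_of_lt hcR]
      · rintro ⟨rfl, rfl⟩
        exact Nat.div_add_mod i R
    rw [hset, Set.ncard_singleton]

/-! ### Power series -/

/-- `∑ x^m` -/
noncomputable def g : ℚ⟦X⟧ := PowerSeries.mk fun _ => 1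

/-- `∑_{i ≥ 1} x^(R i)` -/
noncomputable def q (R : ℕ) : ℚ⟦X⟧ := PowerSeries.mk fun i => if 0 < i ∧ R ∣ i then 1 else 0

/-- the generating function of the families of pairs -/
noncomputable def gf (R d : ℕ) : ℚ⟦X⟧ := PowerSeries.mk fun M => (Nat.card (Fm R d M) : ℚ)

theorem gf_zero (R : ℕ) : gf R 0 = g := by
  ext M
  rw [gf, g, coeff_mk, coeff_mk]
  have : Unique (Fm R 0 M) := by
    refine ⟨⟨⟨Fin.elim0, ?_⟩⟩, ?_⟩
    · rw [Fin.sum_univ_zero]
      exact Nat.zero_le _
    · rintro ⟨p, hp⟩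
      exact Subtype.ext (Subsingleton.elim _ _)
  rw [Nat.card_unique]
  norm_num

theorem gf_succ (R d : ℕ) (hR : 0 < R) : gf R (d + 1) = (g + q R) * gf R d := by
  ext M
  rw [gf, coeff_mk, coeff_mul, card_split R d M hR,
    Finset.Nat.sum_antidiagonal_eq_sum_range_succ_mk, ← Fin.sum_univ_eq_sum_range
      (fun i => (coeff (i, M - i).1) (g + q R) * (coeff (i, M - i).2) (gf R d))]
  rw [Nat.cast_sum]
  refine Finset.sum_congr rfl fun i _ => ?_
  rw [card_Pr R i hR, map_add, g, q, gf, coeff_mk, coeff_mk, coeff_mk]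
  push_cast
  rfl

theorem gf_eq (R d : ℕ) (hR : 0 < R) : gf R d = (g + q R) ^ d * g := by
  induction d with
  | zero => rw [gf_zero, pow_zero, one_mul]
  | succ d ih => rw [gf_succ R d hR, ih, pow_succ']; ring

theorem gf_sum (R d : ℕ) (hR : 0 < R) : gf R d =
    ∑ j ∈ Finset.range (d + 1), (d.choose j : ℚ⟦X⟧) * (q R ^ j * g ^ (d - j + 1)) := by
  rw [gf_eq R d hR, add_comm g (q R), add_pow, Finset.sum_mul]
  refine Finset.sum_congr rfl fun j _ => ?_
  rw [pow_succ]
  ring

/-- multiplication by `q` on the coefficients at the multiples of `R` -/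
theorem coeff_q_mul (R : ℕ) (hR : 0 < R) (h : ℚ⟦X⟧) (t : ℕ) :
    coeff (R * t) (q R * h) = ∑ n ∈ Finset.range t, coeff (R * n) h := by
  rw [coeff_mul]
  have h1 : ∑ p ∈ Finset.HasAntidiagonal.antidiagonal (R * t), coeff p.1 (q R) * coeff p.2 h =
      ∑ p ∈ (Finset.HasAntidiagonal.antidiagonal (R * t)).filter (fun p => 0 < p.1 ∧ R ∣ p.1), coeff p.2 h := by
    rw [Finset.sum_filter]
    refine Finset.sum_congr rfl fun p _ => ?_
    rw [q, coeff_mk]
    split_ifs
    · rw [one_mul]
    · rw [zero_mul]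
  rw [h1]
  refine Finset.sum_nbij' (fun p => p.2 / R) (fun n => (R * (t - n), R * n)) ?_ ?_ ?_ ?_ ?_
  · rintro ⟨a, b⟩ hp
    rw [Finset.mem_filter, Finset.HasAntidiagonal.mem_antidiagonal] at hp
    obtain ⟨h2, h3, k, h4⟩ := hp
    simp only at h2 h3 h4
    rw [Finset.mem_range, Nat.div_lt_iff_lt_mul hR, Nat.mul_comm t R]
    omega
  · intro n hn
    rw [Finset.mem_range] at hn
    rw [Finset.mem_filter, Finset.HasAntidiagonal.mem_antidiagonal]
    refine ⟨?_, ?_, ⟨t - n, rfl⟩⟩
    · show R * (t - n) + R * n = R * t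
      rw [← Nat.mul_add]
      congr 1
      omega
    · exact Nat.mul_pos hR (by omega)
  · rintro ⟨a, b⟩ hp
    rw [Finset.mem_filter, Finset.HasAntidiagonal.mem_antidiagonal] at hp
    obtain ⟨h2, h3, k, h4⟩ := hp
    simp only at h2 h3 h4
    subst h4
    have h5 : b = R * (t - k) := by
      rw [Nat.mul_sub]
      omega
    have h6 : k ≤ t := by
      by_contra h7
      push Not at h7
      have h8 : R * (t + 1) ≤ R * k := Nat.mul_le_mul_left R h7
      rw [Nat.mul_add, Nat.mul_one] at h8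
      omega
    subst h5
    simp only
    rw [Nat.mul_div_cancel_left _ hR]
    congr 2
    omega
  · intro n _
    simp only
    exact Nat.mul_div_cancel_left _ hR
  · rintro ⟨a, b⟩ hp
    rw [Finset.mem_filter, Finset.HasAntidiagonal.mem_antidiagonal] at hp
    obtain ⟨h2, h3, k, h4⟩ := hp
    simp only at h2 h3 h4
    subst h4
    have h5 : R ∣ b := (Nat.dvd_add_right (Dvd.intro k rfl)).1 (h2 ▸ Dvd.intro t rfl)
    simp only
    rw [Nat.mul_div_cancel' h5]

theorem coeff_g_pow (m M : ℕ) : coeff M (g ^ (m + 1)) = ((M + m).choose m : ℚ) := by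
  have h := PowerSeries.mk_one_pow_eq_mk_choose_add ℚ m
  have e : (PowerSeries.mk 1 : ℚ⟦X⟧) = g := rfl
  rw [e] at h
  rw [h, coeff_mk, Nat.add_comm]

end Pool.Agent.H65.EH
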