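import Pool.Agent.H65.EH.Defs

/-!
# Lattice points in the dilates of the base simplices
-/

set_option autoImplicit false

namespace Pool.Agent.H65.EH

open scoped Pointwise

variable {r d : ℕ}

theorem geom (r d : ℕ) : ∑ k : Fin d, ((r : ℝ) - 1) * (r : ℝ) ^ (k : ℕ) = (r : ℝ) ^ d - 1 := by
  rw [← Finset.mul_sum, Fin.sum_univ_eq_sum_range (fun k => (r : ℝ) ^ k), mul_comm]
  exact geom_sum_mul _ _

theorem mem_smul_iff (r d t : ℕ) (y : Fin d → ℝ) :
    y ∈ (t : ℝ) • baseSimplex r d ↔
      ∃ l : Fin d → ℝ, ∃ u : ℝ, (∀ k, 0 ≤ l k) ∧ 0 ≤ u ∧ (∑ k, l k) + u = t ∧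
        y = fun k => l k - u * (((r : ℝ) - 1) * (r : ℝ) ^ (k : ℕ)) := by
  constructor
  · intro hy
    obtain ⟨z, hz, rfl⟩ := Set.mem_smul_set.1 hy
    have key : baseSimplex r d ⊆ {z : Fin d → ℝ | ∃ l : Fin d → ℝ, ∃ u : ℝ,
        (∀ k, 0 ≤ l k) ∧ 0 ≤ u ∧ (∑ k, l k) + u = 1 ∧
        z = fun k => l k - u * (((r : ℝ) - 1) * (r : ℝ) ^ (k : ℕ))} := by
      apply convexHull_min
      · intro w hw
        rcases Set.mem_insert_iff.1 hw with rfl | ⟨j, rfl⟩
        · refine ⟨fun _ => 0, 1, fun _ => le_rfl, zero_le_one, by simp, ?_⟩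
          funext k
          ring
        · refine ⟨Pi.single j 1, 0, ?_, le_rfl, ?_, ?_⟩
          · intro k
            by_cases h : k = j
            · subst h; simp
            · simp [Pi.single_eq_of_ne h]
          · simp
          · funext k; simp
      · intro a ha b hb α β hα hβ hαβ
        obtain ⟨l, u, hl, hu, hs, rfl⟩ := ha
        obtain ⟨l', u', hl', hu', hs', rfl⟩ := hb
        refine ⟨fun k => α * l k + β * l' k, α * u + β * u', ?_, ?_, ?_, ?_⟩
        · intro k
          exact add_nonneg (mul_nonneg hα (hl k)) (mul_nonneg hβ (hl' k))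
        · exact add_nonneg (mul_nonneg hα hu) (mul_nonneg hβ hu')
        · rw [Finset.sum_add_distrib, ← Finset.mul_sum, ← Finset.mul_sum]
          calc α * ∑ k, l k + β * ∑ k, l' k + (α * u + β * u')
              = α * (∑ k, l k + u) + β * (∑ k, l' k + u') := by ring
            _ = 1 := by rw [hs, hs']; linarith
        · funext k
          simp only [Pi.add_apply, Pi.smul_apply, smul_eq_mul]
          ring
    obtain ⟨l, u, hl, hu, hs, rfl⟩ := key hz
    refine ⟨fun k => t * l k, t * u, ?_, ?_, ?_, ?_⟩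
    · intro k; exact mul_nonneg (Nat.cast_nonneg t) (hl k)
    · exact mul_nonneg (Nat.cast_nonneg t) hu
    · rw [← Finset.mul_sum, ← mul_add, hs, mul_one]
    · funext k
      simp only [Pi.smul_apply, smul_eq_mul]
      ring
  · rintro ⟨l, u, hl, hu, hs, rfl⟩
    have hne : (baseSimplex r d).Nonempty :=
      ⟨_, subset_convexHull ℝ _ (Set.mem_insert _ _)⟩
    rcases Nat.eq_zero_or_pos t with ht | ht
    · subst ht
      have hsum : 0 ≤ ∑ k, l k := Finset.sum_nonneg fun k _ => hl k
      simp only [Nat.cast_zero] at hs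
      have hu0 : u = 0 := by linarith
      have hs0 : ∑ k, l k = 0 := by linarith
      have hl0 : ∀ k, l k = 0 := fun k =>
        (Finset.sum_eq_zero_iff_of_nonneg fun k _ => hl k).1 hs0 k (Finset.mem_univ k)
      obtain ⟨z, hz⟩ := hne
      refine Set.mem_smul_set.2 ⟨z, hz, ?_⟩
      funext k
      simp [hl0, hu0]
    · have ht' : (0 : ℝ) < t := by exact_mod_cast ht
      refine Set.mem_smul_set.2 ⟨fun k => (l k - u * (((r : ℝ) - 1) * (r : ℝ) ^ (k : ℕ))) / t,
        ?_, ?_⟩
      · have hconv : Convex ℝ (baseSimplex r d) := convex_convexHull ℝ _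
        have hmem := hconv.sum_mem (t := (Finset.univ : Finset (Option (Fin d))))
          (w := fun o => Option.elim o (u / t) (fun k => l k / t))
          (z := fun o => Option.elim o
            (fun k : Fin d => -(((r : ℝ) - 1) * (r : ℝ) ^ (k : ℕ)))
            (fun k => (Pi.single k (1 : ℝ) : Fin d → ℝ)))
          (by
            intro o _
            cases o with
            | none => exact div_nonneg hu ht'.le
            | some k => exact div_nonneg (hl k) ht'.le)
          (by
            rw [Fintype.sum_option]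
            simp only [Option.elim_none, Option.elim_some]
            rw [← Finset.sum_div, ← add_div, add_comm, hs, div_self ht'.ne'])
          (by
            intro o _
            cases o with
            | none => exact subset_convexHull ℝ _ (Set.mem_insert _ _)
            | some k => exact subset_convexHull ℝ _ (Set.mem_insert_of_mem _ ⟨k, rfl⟩))
        rw [Fintype.sum_option] at hmem
        simp only [Option.elim_none, Option.elim_some] at hmem
        convert hmem using 1
        funext k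
        simp only [Pi.add_apply, Pi.smul_apply, smul_eq_mul, Finset.sum_apply]
        have : ∑ c : Fin d, l c / (t : ℝ) * (Pi.single c (1 : ℝ) : Fin d → ℝ) k = l k / t := by
          rw [Finset.sum_eq_single k]
          · simp
          · intro b _ hb
            rw [Pi.single_eq_of_ne hb.symm, mul_zero]
          · simp
        rw [this]
        ring
      · funext k
        simp only [Pi.smul_apply, smul_eq_mul]
        field_simp

/-- the lattice points in the dilates, in terms of integer inequalities -/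
theorem lattice_mem_iff (hr : 1 ≤ r) (t : ℕ) (x : Fin d → ℤ) :
    (fun k => (x k : ℝ)) ∈ (t : ℝ) • baseSimplex r d ↔
      0 ≤ (t : ℤ) - ∑ k, x k ∧
        ∀ k : Fin d, 0 ≤ (r : ℤ) ^ (d - (k : ℕ)) * x k + ((r : ℤ) - 1) * ((t : ℤ) - ∑ k, x k) := by
  have hr0 : (0 : ℝ) < r := by exact_mod_cast hr
  have hpow : ∀ k : Fin d, (r : ℝ) ^ (d - (k : ℕ)) * (r : ℝ) ^ (k : ℕ) = (r : ℝ) ^ d := by
    intro k
    rw [← pow_add]
    congr 1
    omega
  rw [mem_smul_iff]
  constructor
  · rintro ⟨l, u, hl, hu, hs, hx⟩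
    have hxk : ∀ k, (x k : ℝ) = l k - u * (((r : ℝ) - 1) * (r : ℝ) ^ (k : ℕ)) :=
      fun k => congrFun hx k
    have hm : (((t : ℤ) - ∑ k, x k : ℤ) : ℝ) = (r : ℝ) ^ d * u := by
      push_cast
      simp_rw [hxk]
      rw [Finset.sum_sub_distrib, ← Finset.mul_sum, geom]
      linarith
    constructor
    · have : (0 : ℝ) ≤ (((t : ℤ) - ∑ k, x k : ℤ) : ℝ) := by rw [hm]; positivity
      exact_mod_cast this
    · intro k
      have hk : (0 : ℝ) ≤ (((r : ℤ) ^ (d - (k : ℕ)) * x k +
          ((r : ℤ) - 1) * ((t : ℤ) - ∑ k, x k) : ℤ) : ℝ) := by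
        rw [Int.cast_add, Int.cast_mul, Int.cast_mul, hm, hxk k]
        push_cast
        have e : (r : ℝ) ^ (d - (k : ℕ)) * (l k - u * (((r : ℝ) - 1) * (r : ℝ) ^ (k : ℕ))) +
            ((r : ℝ) - 1) * ((r : ℝ) ^ d * u) = (r : ℝ) ^ (d - (k : ℕ)) * l k := by
          rw [← hpow k]
          ring
        rw [e]
        exact mul_nonneg (by positivity) (hl k)
      exact_mod_cast hk
  · rintro ⟨h1, h2⟩
    have hrd : (0 : ℝ) < (r : ℝ) ^ d := by positivity
    set s : ℤ := (t : ℤ) - ∑ k, x k with hs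
    have hsr : (s : ℝ) = (t : ℝ) - ∑ k, (x k : ℝ) := by
      rw [hs]
      push_cast
      rfl
    refine ⟨fun k => (x k : ℝ) + (s : ℝ) / (r : ℝ) ^ d * (((r : ℝ) - 1) * (r : ℝ) ^ (k : ℕ)),
      (s : ℝ) / (r : ℝ) ^ d, ?_, ?_, ?_, ?_⟩
    · intro k
      have h3 : (0 : ℝ) ≤ (((r : ℤ) ^ (d - (k : ℕ)) * x k + ((r : ℤ) - 1) * s : ℤ) : ℝ) := by
        exact_mod_cast h2 k
      push_cast at h3
      have h4 : (0 : ℝ) < (r : ℝ) ^ (d - (k : ℕ)) := by positivity
      have e : (r : ℝ) ^ (d - (k : ℕ)) * ((x k : ℝ) + (s : ℝ) / (r : ℝ) ^ d *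
          (((r : ℝ) - 1) * (r : ℝ) ^ (k : ℕ))) =
          (r : ℝ) ^ (d - (k : ℕ)) * (x k : ℝ) + ((r : ℝ) - 1) * (s : ℝ) := by
        have : (s : ℝ) / (r : ℝ) ^ d * ((r : ℝ) ^ (d - (k : ℕ)) * (r : ℝ) ^ (k : ℕ)) = s := by
          rw [hpow k, div_mul_cancel₀ _ hrd.ne']
        linear_combination ((r : ℝ) - 1) * this
      rw [← e] at h3
      exact (mul_nonneg_iff_of_pos_left h4).1 h3
    · have h3 : (0 : ℝ) ≤ (s : ℝ) := by exact_mod_cast h1
      positivity
    · rw [Finset.sum_add_distrib, ← Finset.mul_sum, geom]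
      have : (s : ℝ) / (r : ℝ) ^ d * (r : ℝ) ^ d = s := div_mul_cancel₀ _ hrd.ne'
      linear_combination this + hsr
    · funext k
      ring

end Pool.Agent.H65.EH
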