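import Pool.Agent.H65.EH.Gen

/-!
# The Ehrhart polynomial of the base simplices

`S` is summation: `(S p)(t) = ∑_{n < t} p(n)`; `E m` is the polynomial `binom (X + m) m`. The Ehrhart
polynomial of `B_(R+1, d)` is `∑_j binom(d, j) S^j (E (d - j) (R X))`.
-/

set_option autoImplicit false

namespace Pool.Agent.H65.EH

open Polynomial

/-- Faulhaber's polynomial: `(F k)(t) = ∑_{n < t} n^k` -/
noncomputable def F (k : ℕ) : ℚ[X] :=
  ∑ i ∈ Finset.range (k + 1), C (_root_.bernoulli i * ((k + 1).choose i) / (k + 1)) * X ^ (k + 1 - i)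

theorem F_eval (k t : ℕ) : (F k).eval (t : ℚ) = ∑ n ∈ Finset.range t, (n : ℚ) ^ k := by
  rw [sum_range_pow, F, eval_finsetSum]
  refine Finset.sum_congr rfl fun i _ => ?_
  rw [eval_mul, eval_C, eval_pow, eval_X]
  ring

theorem F_coeff (k m : ℕ) : (F k).coeff m =
    if m ≤ k + 1 ∧ 1 ≤ m then _root_.bernoulli (k + 1 - m) * ((k + 1).choose (k + 1 - m)) / (k + 1) else 0 := by
  unfold F
  rw [finsetSum_coeff]
  simp_rw [coeff_C_mul, coeff_X_pow]
  split_ifs with h
  · rw [Finset.sum_eq_single (k + 1 - m)]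
    · rw [if_pos (by omega), mul_one]
    · intro i hi hne
      rw [Finset.mem_range] at hi
      rw [if_neg (by omega), mul_zero]
    · intro hni
      rw [Finset.mem_range] at hni
      omega
  · refine Finset.sum_eq_zero fun i hi => ?_
    rw [Finset.mem_range] at hi
    rw [if_neg (by omega), mul_zero]

/-- summation of polynomials -/
noncomputable def S : ℚ[X] →ₗ[ℚ] ℚ[X] :=
  Polynomial.lsum fun n => LinearMap.toSpanSingleton ℚ ℚ[X] (F n)

theorem S_monomial (n : ℕ) (a : ℚ) : S (monomial n a) = a • F n := by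
  unfold S
  rw [Polynomial.lsum_apply, sum_monomial_index _ _ (by simp)]
  rfl

theorem S_X_pow (n : ℕ) : S (X ^ n) = F n := by
  rw [X_pow_eq_monomial, S_monomial, one_smul]

theorem S_eval (p : ℚ[X]) (t : ℕ) :
    (S p).eval (t : ℚ) = ∑ n ∈ Finset.range t, p.eval (n : ℚ) := by
  induction p using Polynomial.induction_on' with
  | add p q hp hq => rw [map_add, eval_add, hp, hq, ← Finset.sum_add_distrib]; simp
  | monomial n a =>
    rw [S_monomial, eval_smul, F_eval, smul_eq_mul, Finset.mul_sum]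
    exact Finset.sum_congr rfl fun k _ => by rw [eval_monomial]

theorem S_sum (p : ℚ[X]) : S p = p.sum fun n a => a • F n := by
  unfold S
  rw [Polynomial.lsum_apply]
  rfl

theorem S_natDegree {p : ℚ[X]} {m : ℕ} (h : p.natDegree ≤ m) : (S p).natDegree ≤ m + 1 := by
  rw [S_sum, Polynomial.sum]
  refine natDegree_sum_le_of_forall_le _ _ fun n hn => ?_
  refine (natDegree_smul_le _ _).trans ?_
  have hnm : n ≤ m := (le_natDegree_of_mem_supp n hn).trans h
  rw [natDegree_le_iff_coeff_eq_zero]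
  intro N hN
  rw [F_coeff, if_neg (by omega)]

theorem S_coeff_top {p : ℚ[X]} {m : ℕ} (h : p.natDegree ≤ m) :
    (S p).coeff (m + 1) = p.coeff m / (m + 1) := by
  rw [S_sum, Polynomial.sum, finsetSum_coeff]
  rw [Finset.sum_eq_single m]
  · rw [coeff_smul, smul_eq_mul, F_coeff, if_pos (by omega), Nat.sub_self, _root_.bernoulli_zero,
      Nat.choose_zero_right]
    push_cast
    ring
  · intro n hn hne
    have hnm : n ≤ m := (le_natDegree_of_mem_supp n hn).trans h
    rw [coeff_smul, F_coeff, if_neg (by omega), smul_zero]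
  · intro hm
    rw [coeff_smul, notMem_support_iff.1 hm, zero_smul]

theorem S_pow_natDegree {p : ℚ[X]} {m : ℕ} (h : p.natDegree ≤ m) (j : ℕ) :
    ((S ^ j) p).natDegree ≤ m + j := by
  induction j with
  | zero => simpa using h
  | succ j ih =>
    rw [pow_succ', Module.End.mul_apply]
    exact S_natDegree ih

theorem S_pow_top_nonneg {p : ℚ[X]} {m : ℕ} (h : p.natDegree ≤ m) (h0 : 0 ≤ p.coeff m) (j : ℕ) :
    0 ≤ ((S ^ j) p).coeff (m + j) := by
  induction j with
  | zero => simpa using h0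
  | succ j ih =>
    rw [pow_succ', Module.End.mul_apply, ← Nat.add_assoc, S_coeff_top (S_pow_natDegree h j)]
    positivity

/-- `binom (X + m) m` -/
noncomputable def E (m : ℕ) : ℚ[X] :=
  C (1 / (m.factorial : ℚ)) * ∏ i ∈ Finset.range m, (X + C ((i : ℚ) + 1))

theorem E_monic (m : ℕ) : (∏ i ∈ Finset.range m, (X + C ((i : ℚ) + 1))).Monic :=
  monic_prod_of_monic _ _ fun _ _ => monic_X_add_C _

theorem E_deg (m : ℕ) : (∏ i ∈ Finset.range m, (X + C ((i : ℚ) + 1)) : ℚ[X]).natDegree = m := by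
  rw [natDegree_prod_of_monic _ _ fun _ _ => monic_X_add_C _,
    Finset.sum_congr rfl fun i _ => natDegree_X_add_C _, Finset.sum_const, Finset.card_range,
    smul_eq_mul, mul_one]

theorem E_natDegree (m : ℕ) : (E m).natDegree ≤ m := by
  unfold E
  refine (natDegree_C_mul_le _ _).trans ?_
  rw [E_deg]

theorem E_coeff_top (m : ℕ) : (E m).coeff m = 1 / (m.factorial : ℚ) := by
  unfold E
  have h := (E_monic m).coeff_natDegree
  rw [E_deg] at h
  rw [coeff_C_mul, h, mul_one]

theorem E_eval (m N : ℕ) : (E m).eval (N : ℚ) = ((N + m).choose m : ℚ) := by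
  unfold E
  rw [eval_mul, eval_C, eval_prod]
  have h1 : ∏ i ∈ Finset.range m, (X + C ((i : ℚ) + 1) : ℚ[X]).eval (N : ℚ) =
      (((N + 1).ascFactorial m : ℕ) : ℚ) := by
    induction m with
    | zero => simp
    | succ m ih =>
      rw [Finset.prod_range_succ, ih, Nat.ascFactorial_succ]
      simp only [eval_add, eval_X, eval_C]
      push_cast
      ring
  rw [h1, Nat.ascFactorial_eq_factorial_mul_choose]
  have h2 : (m.factorial : ℚ) ≠ 0 := by positivity
  push_cast
  field_simp

/-- the Ehrhart polynomial of `B_(R+1, d)` -/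
noncomputable def ehr (R d : ℕ) : ℚ[X] :=
  ∑ j ∈ Finset.range (d + 1), (d.choose j : ℚ) • (S ^ j) ((E (d - j)).comp (C (R : ℚ) * X))

theorem comp_natDegree (R m : ℕ) : ((E m).comp (C (R : ℚ) * X)).natDegree ≤ m := by
  rw [natDegree_le_iff_coeff_eq_zero]
  intro N hN
  rw [comp_C_mul_X_coeff, coeff_eq_zero_of_natDegree_lt (lt_of_le_of_lt (E_natDegree m) hN),
    zero_mul]

theorem comp_coeff (R m k : ℕ) : ((E m).comp (C (R : ℚ) * X)).coeff k = (E m).coeff k * (R : ℚ) ^ k :=
  comp_C_mul_X_coeff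

/-- a polynomial that gives the coefficients of `h` at the multiples of `R` -/
def Rep (R : ℕ) (h : PowerSeries ℚ) (p : ℚ[X]) : Prop :=
  ∀ n : ℕ, PowerSeries.coeff (R * n) h = p.eval (n : ℚ)

theorem rep_g (R m : ℕ) : Rep R (g ^ (m + 1)) ((E m).comp (C (R : ℚ) * X)) := by
  intro n
  rw [coeff_g_pow, eval_comp, eval_mul, eval_C, eval_X, ← Nat.cast_mul, E_eval]

theorem rep_q {R : ℕ} (hR : 0 < R) {h : PowerSeries ℚ} {p : ℚ[X]} (hp : Rep R h p) (j : ℕ) :
    Rep R (q R ^ j * h) ((S ^ j) p) := by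
  induction j with
  | zero => simpa using hp
  | succ j ih =>
    intro n
    rw [pow_succ', mul_assoc, coeff_q_mul R hR, pow_succ', Module.End.mul_apply, S_eval]
    exact Finset.sum_congr rfl fun k _ => ih k

theorem card_Prs (R d t : ℕ) : (Prs R d t).ncard = Nat.card (Fm R d (R * t)) := rfl

theorem ehr_eval (R d : ℕ) (hR : 0 < R) (t : ℕ) :
    (latticePointCount (baseSimplex (R + 1) d) t : ℚ) = (ehr R d).eval (t : ℚ) := by
  rw [count_eq hR, card_Prs]
  have h1 : PowerSeries.coeff (R * t) (gf R d) = (Nat.card (Fm R d (R * t)) : ℚ) := by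
    rw [gf, PowerSeries.coeff_mk]
  rw [← h1, gf_sum R d hR, map_sum, ehr, eval_finsetSum]
  refine Finset.sum_congr rfl fun j hj => ?_
  have h2 := rep_q hR (rep_g R (d - j)) j t
  rw [eval_smul, smul_eq_mul, ← h2]
  have h3 : ((d.choose j : ℕ) : PowerSeries ℚ) = PowerSeries.C (d.choose j : ℚ) := by
    rw [map_natCast]
  rw [h3, PowerSeries.coeff_C_mul]

theorem ehr_natDegree_le (R d : ℕ) : (ehr R d).natDegree ≤ d := by
  unfold ehr
  refine natDegree_sum_le_of_forall_le _ _ fun j hj => ?_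
  rw [Finset.mem_range] at hj
  refine (natDegree_smul_le _ _).trans ?_
  have h := S_pow_natDegree (comp_natDegree R (d - j)) j
  have e : d - j + j = d := by omega
  rwa [e] at h

theorem ehr_coeff_top (R d : ℕ) (hR : 0 < R) : 0 < (ehr R d).coeff d := by
  unfold ehr
  rw [finsetSum_coeff]
  have hnn : ∀ j ∈ Finset.range (d + 1),
      0 ≤ ((d.choose j : ℚ) • (S ^ j) ((E (d - j)).comp (C (R : ℚ) * X))).coeff d := by
    intro j hj
    rw [Finset.mem_range] at hj
    rw [coeff_smul, smul_eq_mul]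
    have h := S_pow_top_nonneg (comp_natDegree R (d - j))
      (by rw [comp_coeff, E_coeff_top]; positivity) j
    have e : d - j + j = d := by omega
    rw [e] at h
    positivity
  refine lt_of_lt_of_le ?_ (Finset.single_le_sum hnn (Finset.mem_range.2 (Nat.succ_pos d)))
  rw [Nat.choose_zero_right, Nat.sub_zero, pow_zero, Module.End.one_apply, coeff_smul, comp_coeff,
    E_coeff_top]
  have hRq : (0 : ℚ) < R := by exact_mod_cast hR
  simp only [Nat.cast_one, one_smul]
  positivity

theorem isEhrhart (R d : ℕ) (hR : 0 < R) : IsEhrhartPolynomial (baseSimplex (R + 1) d) (ehr R d) := by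
  refine ⟨le_antisymm (ehr_natDegree_le R d) ?_, fun t => ehr_eval R d hR t⟩
  exact le_natDegree_of_ne_zero (ehr_coeff_top R d hR).ne'

/-- uniqueness of the Ehrhart polynomial -/
theorem isEhrhart_unique {d : ℕ} {P : Set (Fin d → ℝ)} {p p' : ℚ[X]}
    (h : IsEhrhartPolynomial P p) (h' : IsEhrhartPolynomial P p') : p = p' := by
  refine Polynomial.eq_of_infinite_eval_eq p p' ?_
  refine Set.Infinite.mono (s := Set.range fun n : ℕ => (n : ℚ)) ?_
    (Set.infinite_range_of_injective Nat.cast_injective)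
  rintro _ ⟨t, rfl⟩
  show p.eval (t : ℚ) = p'.eval (t : ℚ)
  rw [← h.2 t, ← h'.2 t]

end Pool.Agent.H65.EH
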